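import Mathlib

/-!
# Auxiliary lemmas (no definitions of the hand-in are used here)

* continuous additive characters of the real line;
* the Gaussian as a Schwartz function;
* characters of the unitary group factor through the determinant.
-/

set_option autoImplicit false

noncomputable section

namespace Pool.Agent.Helper35.Arch

section CharSec
open MeasureTheory intervalIntegral

lemma addChar_real_eq_exp (ψ : AddChar ℝ Circle) (hψ : Continuous ψ) :
    ∃ b : ℝ, ∀ t : ℝ, ((ψ t : Circle) : ℂ) = Complex.exp (((b * t : ℝ) : ℂ) * Complex.I) := by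
  set g : ℝ → ℂ := fun t => ((ψ t : Circle) : ℂ) with hg
  have hgc : Continuous g := continuous_subtype_val.comp hψ
  have hg0 : g 0 = 1 := by simp [hg]
  have hgadd : ∀ x y, g (x + y) = g x * g y := by
    intro x y; simp [hg, AddChar.map_add_eq_mul]
  -- a primitive
  set F : ℝ → ℂ := fun x => ∫ t in (0:ℝ)..x, g t with hF
  have hFderiv : ∀ x, HasDerivAt F (g x) x := fun x => by
    exact intervalIntegral.integral_hasDerivAt_right (hgc.intervalIntegrable _ _)
      (hgc.stronglyMeasurableAtFilter _ _) hgc.continuousAt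
  -- find a with F a ≠ 0
  obtain ⟨a, ha⟩ : ∃ a, F a ≠ 0 := by
    by_contra hcon
    push Not at hcon
    have h1 : F = fun _ => 0 := funext hcon
    have h2 := hFderiv 0
    rw [h1, hg0] at h2
    have := h2.unique (hasDerivAt_const (0:ℝ) (0:ℂ))
    exact one_ne_zero this
  have hgF : ∀ x, g x * F a = F (x + a) - F x := by
    intro x
    have h1 : F (x + a) - F x = ∫ t in x..(x + a), g t := by
      simp only [hF]
      rw [intervalIntegral.integral_interval_sub_left] <;> exact hgc.intervalIntegrable _ _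
    rw [h1]
    have h2 : ∫ t in x..(x+a), g t = ∫ t in (0:ℝ)..a, g (x + t) := by
      rw [intervalIntegral.integral_comp_add_left]
      simp
    rw [h2]
    simp only [hgadd]
    rw [intervalIntegral.integral_const_mul]
  have hgd : ∀ x, HasDerivAt g ((g (x + a) - g x) / F a) x := by
    intro x
    have h3 : g = fun x => (F (x + a) - F x) / F a := by
      funext y; rw [← hgF y]; field_simp
    have h4 : HasDerivAt (fun x => (F (x + a) - F x) / F a) ((g (x + a) - g x) / F a) x := by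
      apply HasDerivAt.div_const
      apply HasDerivAt.sub _ (hFderiv x)
      have := (hFderiv (x + a)).comp_add_const x a
      exact this
    rw [← h3] at h4
    exact h4
  set k : ℂ := (g a - 1) / F a with hk
  have hgd' : ∀ x, HasDerivAt g (k * g x) x := by
    intro x
    have := hgd x
    rw [hgadd] at this
    convert this using 1
    rw [hk]; field_simp
  have hexp : ∀ x : ℝ, g x = Complex.exp (k * x) := by
    have hconst : ∀ x : ℝ, HasDerivAt (fun x : ℝ => g x * Complex.exp (-(k * x))) 0 x := by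
      intro x
      have h5 : HasDerivAt (fun x : ℝ => Complex.exp (-(k * x))) (Complex.exp (-(k * x)) * (-(k * 1))) x := by
        apply HasDerivAt.cexp
        apply HasDerivAt.neg
        exact (Complex.ofRealCLM.hasDerivAt (x := x)).const_mul k
      have h10 := (hgd' x).mul h5
      have h11 : k * g x * Complex.exp (-(k * x)) + g x * (Complex.exp (-(k * x)) * (-(k * 1))) = 0 := by
        ring
      rw [h11] at h10
      exact h10
    have hdiff : Differentiable ℝ (fun x : ℝ => g x * Complex.exp (-(k * x))) :=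
      fun x => (hconst x).differentiableAt
    have h6 := is_const_of_deriv_eq_zero hdiff (fun x => (hconst x).deriv)
    intro x
    have h7 := h6 x 0
    simp only [hg0, Complex.ofReal_zero, mul_zero, neg_zero, Complex.exp_zero, mul_one] at h7
    have h8 : g x * Complex.exp (-(k * x)) * Complex.exp (k * x) = Complex.exp (k * x) := by
      rw [h7, one_mul]
    rw [mul_assoc, ← Complex.exp_add] at h8
    simpa using h8
  have hre : k.re = 0 := by
    have h9 : ‖g 1‖ = 1 := Circle.norm_coe _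
    rw [hexp 1, Complex.norm_exp] at h9
    simp at h9
    exact h9
  refine ⟨k.im, fun t => ?_⟩
  have : g t = Complex.exp (k * t) := hexp t
  rw [show ((ψ t : Circle) : ℂ) = g t from rfl, this]
  congr 1
  apply Complex.ext <;> simp [hre]

end CharSec

section GaussSec
open scoped SchwartzMap
open Real

lemma one_add_pow_le_exp (a : ℝ) (ha : 0 < a) (N : ℕ) :
    ∃ M : ℝ, 0 ≤ M ∧ ∀ r : ℝ, 0 ≤ r → (1 + r) ^ N * Real.exp (-(a * r ^ 2)) ≤ M := by
  set s : ℝ := a / (N + 1) with hs
  have hs0 : 0 < s := by positivity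
  set K : ℝ := max 2 (1 / s) with hK
  have hK0 : 0 < K := lt_of_lt_of_le (by norm_num) (le_max_left _ _)
  refine ⟨K ^ (N + 1), by positivity, fun r hr => ?_⟩
  have h1 : 1 + r ≤ K * Real.exp (s * r ^ 2) := by
    have h2 : 1 + s * r ^ 2 ≤ Real.exp (s * r ^ 2) := by
      have := Real.add_one_le_exp (s * r ^ 2); linarith
    have h3 : 1 + r ≤ K * (1 + s * r ^ 2) := by
      have h4 : (2:ℝ) ≤ K := le_max_left _ _
      have h5 : 1 ≤ K * s := by
        have : 1 / s ≤ K := le_max_right _ _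
        calc (1:ℝ) = 1 / s * s := by field_simp
          _ ≤ K * s := by gcongr
      nlinarith [sq_nonneg (r - 1), mul_le_mul_of_nonneg_right h5 (sq_nonneg r)]
    calc 1 + r ≤ K * (1 + s * r ^ 2) := h3
      _ ≤ K * Real.exp (s * r ^ 2) := by gcongr
  have h6 : (1 + r) ^ (N + 1) ≤ K ^ (N + 1) * Real.exp (a * r ^ 2) := by
    calc (1 + r) ^ (N + 1) ≤ (K * Real.exp (s * r ^ 2)) ^ (N + 1) := by gcongr
      _ = K ^ (N + 1) * Real.exp (a * r ^ 2) := by
        rw [mul_pow, ← Real.exp_nat_mul]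
        congr 2
        rw [hs]; push_cast; field_simp
  have h7 : (1 + r) ^ N ≤ (1 + r) ^ (N + 1) := by
    apply pow_le_pow_right₀ <;> linarith
  calc (1 + r) ^ N * Real.exp (-(a * r ^ 2)) ≤ (K ^ (N + 1) * Real.exp (a * r ^ 2)) * Real.exp (-(a * r ^ 2)) := by
        gcongr; exact h7.trans h6
    _ = K ^ (N + 1) := by rw [mul_assoc, ← Real.exp_add]; simp

variable {E : Type*} [NormedAddCommGroup E] [InnerProductSpace ℝ E]

/-- The real Gaussian as a Schwartz function. -/
def gaussR (a : ℝ) (ha : 0 < a) : 𝓢(E, ℝ) where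
  toFun u := Real.exp (-(a * ‖u‖ ^ 2))
  smooth' := by
    exact (contDiff_const.mul (contDiff_norm_sq ℝ)).neg.exp
  decay' := by
    intro k n
    have htg : Function.HasTemperateGrowth (fun u : E => -(a * ‖u‖ ^ 2)) := by fun_prop
    obtain ⟨m, C, hC0, hC⟩ := htg.norm_iteratedFDeriv_le_uniform n
    set C' : ℝ := max C 1 with hC'
    have hC'1 : 1 ≤ C' := le_max_right _ _
    obtain ⟨M, hM0, hM⟩ := one_add_pow_le_exp a ha (k + m * n)
    refine ⟨(n.factorial : ℝ) * C' ^ n * M, fun x => ?_⟩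
    have hD1 : 1 ≤ C' * (1 + ‖x‖) ^ m := by
      have : 1 ≤ (1 + ‖x‖) ^ m := one_le_pow₀ (by linarith [norm_nonneg x])
      nlinarith
    have key : ‖iteratedFDeriv ℝ n (Real.exp ∘ (fun u : E => -(a * ‖u‖ ^ 2))) x‖
        ≤ n.factorial * Real.exp (-(a * ‖x‖ ^ 2)) * (C' * (1 + ‖x‖) ^ m) ^ n := by
      apply norm_iteratedFDeriv_comp_le (N := ((⊤ : ℕ∞) : WithTop ℕ∞)) (Real.contDiff_exp) htg.1 (by exact_mod_cast le_top) x
      · intro i _
        rw [norm_iteratedFDeriv_eq_norm_iteratedDeriv, iteratedDeriv_eq_iterate, Real.iter_deriv_exp]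
        simp
      · intro i hi1 hin
        calc ‖iteratedFDeriv ℝ i (fun u : E => -(a * ‖u‖ ^ 2)) x‖ ≤ C * (1 + ‖x‖) ^ m := hC i hin x
          _ ≤ C' * (1 + ‖x‖) ^ m := by gcongr; exact le_max_left _ _
          _ ≤ (C' * (1 + ‖x‖) ^ m) ^ i := le_self_pow₀ hD1 (by omega)
    calc ‖x‖ ^ k * ‖iteratedFDeriv ℝ n (fun u : E => Real.exp (-(a * ‖u‖ ^ 2))) x‖
        ≤ (1 + ‖x‖) ^ k * (n.factorial * Real.exp (-(a * ‖x‖ ^ 2)) * (C' * (1 + ‖x‖) ^ m) ^ n) := by
          gcongr
          · linarith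
          · exact key
      _ = (n.factorial : ℝ) * C' ^ n * ((1 + ‖x‖) ^ (k + m * n) * Real.exp (-(a * ‖x‖ ^ 2))) := by
          rw [pow_add, pow_mul, mul_pow]; ring
      _ ≤ (n.factorial : ℝ) * C' ^ n * M := by
          gcongr
          exact hM _ (norm_nonneg x)

end GaussSec

section TempSec

lemma exp_temperate (b : ℝ) : Function.HasTemperateGrowth (fun t : ℝ => Complex.exp (((b * t : ℝ) : ℂ) * Complex.I)) := by
  have hcd : ContDiff ℝ ((⊤ : ℕ∞) : WithTop ℕ∞) (fun t : ℝ => Complex.exp (((b * t : ℝ) : ℂ) * Complex.I)) := by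
    apply ContDiff.cexp
    apply ContDiff.mul _ contDiff_const
    exact Complex.ofRealCLM.contDiff.comp (contDiff_const.mul contDiff_id)
  refine ⟨hcd, fun m => ⟨0, |b| ^ m, fun x => ?_⟩⟩
  rw [norm_iteratedFDeriv_eq_norm_iteratedDeriv, iteratedDeriv_eq_iterate]
  have h1 : (fun t : ℝ => Complex.exp (((b * t : ℝ) : ℂ) * Complex.I)) = fun t : ℝ => Complex.exp (((b : ℂ) * Complex.I) * t) := by
    funext t; push_cast; ring_nf
  have h2 : ∀ m : ℕ, deriv^[m] (fun t : ℝ => Complex.exp (((b : ℂ) * Complex.I) * t)) =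
      fun t : ℝ => ((b : ℂ) * Complex.I) ^ m * Complex.exp (((b : ℂ) * Complex.I) * t) := by
    intro m
    induction m with
    | zero => simp
    | succ m ih =>
      rw [Function.iterate_succ_apply', ih]
      funext t
      have h5 : HasDerivAt (fun x : ℝ => Complex.exp (((b : ℂ) * Complex.I) * x)) (Complex.exp (((b : ℂ) * Complex.I) * t) * (((b : ℂ) * Complex.I) * 1)) t := by
        apply HasDerivAt.cexp
        exact (Complex.ofRealCLM.hasDerivAt (x := t)).const_mul _
      rw [(h5.const_mul _).deriv]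
      ring
  rw [h1, h2]
  simp only [pow_zero, mul_one, norm_mul, norm_pow, Complex.norm_I, Complex.norm_real, Real.norm_eq_abs]
  rw [Complex.norm_exp]
  simp

end TempSec

section ReflSec
open scoped ComplexConjugate ComplexOrder
open Matrix

variable {n : ℕ}

/-- unitary group as a subgroup of GL -/
def UG (n : ℕ) : Subgroup (GL (Fin n) ℂ) where
  carrier := {g | (g.1)ᴴ * g.1 = 1}
  mul_mem' := by
    intro a b ha hb
    simp only [Set.mem_ofPred_eq, Units.val_mul, conjTranspose_mul] at *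
    calc b.1ᴴ * a.1ᴴ * (a.1 * b.1) = b.1ᴴ * (a.1ᴴ * a.1) * b.1 := by simp only [Matrix.mul_assoc]
      _ = 1 := by rw [ha, Matrix.mul_one, hb]
  one_mem' := by simp
  inv_mem' := by
    intro a ha
    simp only [Set.mem_ofPred_eq] at *
    have h1 : a.1ᴴ = (a⁻¹).1 := by
      calc a.1ᴴ = a.1ᴴ * (a.1 * (a⁻¹).1) := by rw [Units.mul_inv, Matrix.mul_one]
        _ = (a⁻¹).1 := by rw [← Matrix.mul_assoc, ha, Matrix.one_mul]
    rw [← h1, conjTranspose_conjTranspose]
    have h2 : a.1 * a.1ᴴ = 1 := by rw [h1]; exact Units.mul_inv a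
    exact h2

lemma mem_UG {g : GL (Fin n) ℂ} : g ∈ UG n ↔ (g.1)ᴴ * g.1 = 1 := Iff.rfl

/-- the complex reflection matrix -/
def Rm (v : Fin n → ℂ) (ζ : ℂ) : Matrix (Fin n) (Fin n) ℂ := 1 + (ζ - 1) • vecMulVec v (star v)

lemma Rm_one (v : Fin n → ℂ) : Rm v 1 = 1 := by simp [Rm]

lemma Rm_mul (v : Fin n → ℂ) (hv : star v ⬝ᵥ v = 1) (ζ ξ : ℂ) : Rm v ζ * Rm v ξ = Rm v (ζ * ξ) := by
  unfold Rm
  have hP : vecMulVec v (star v) * vecMulVec v (star v) = vecMulVec v (star v) := by
    rw [vecMulVec_mul_vecMulVec, hv, one_smul]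
  rw [Matrix.add_mul, Matrix.mul_add, Matrix.mul_add, Matrix.one_mul, Matrix.one_mul, Matrix.mul_one,
    Matrix.smul_mul, Matrix.mul_smul, hP, smul_smul]
  rw [add_assoc, ← add_smul, ← add_smul]
  congr 2
  ring

lemma Rm_conjTranspose (v : Fin n → ℂ) (ζ : ℂ) : (Rm v ζ)ᴴ = Rm v (conj ζ) := by
  unfold Rm
  rw [conjTranspose_add, conjTranspose_one, conjTranspose_smul, conjTranspose_vecMulVec, star_star]
  simp

/-- the complex reflection as an element of the unitary group. -/
def R (v : Fin n → ℂ) (hv : star v ⬝ᵥ v = 1) (ζ : Circle) : UG n :=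
  ⟨⟨Rm v ζ, Rm v (ζ⁻¹ : Circle), by rw [Rm_mul v hv]; simp [Rm_one],
    by rw [Rm_mul v hv]; simp [Rm_one]⟩, by
    rw [mem_UG]
    simp only [Rm_conjTranspose]
    rw [Rm_mul v hv]
    have : (conj (ζ : ℂ)) * ζ = 1 := by
      rw [← Circle.coe_inv_eq_conj, ← Circle.coe_mul]; simp
    rw [this, Rm_one]⟩

@[simp] lemma R_val (v : Fin n → ℂ) (hv : star v ⬝ᵥ v = 1) (ζ : Circle) :
    ((R v hv ζ : UG n) : GL (Fin n) ℂ).1 = Rm v ζ := rfl

lemma UG_ext {g h : UG n} (H : (g : GL (Fin n) ℂ).1 = (h : GL (Fin n) ℂ).1) : g = h :=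
  Subtype.ext (Units.ext H)

lemma R_mul (v : Fin n → ℂ) (hv : star v ⬝ᵥ v = 1) (ζ ξ : Circle) :
    R v hv ζ * R v hv ξ = R v hv (ζ * ξ) := by
  apply UG_ext
  simp [Rm_mul v hv]

lemma R_one (v : Fin n → ℂ) (hv : star v ⬝ᵥ v = 1) : R v hv 1 = 1 := by
  apply UG_ext
  simp [Rm_one]

lemma det_Rm (v : Fin n → ℂ) (hv : star v ⬝ᵥ v = 1) (ζ : ℂ) : (Rm v ζ).det = ζ := by
  unfold Rm
  rw [← smul_vecMulVec]
  rw [vecMulVec_eq (Fin 1), det_one_add_replicateCol_mul_replicateRow]
  rw [dotProduct_smul, hv]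
  simp

lemma unit_mulVec (h : UG n) (v : Fin n → ℂ) (hv : star v ⬝ᵥ v = 1) :
    star (h.1.1 *ᵥ v) ⬝ᵥ (h.1.1 *ᵥ v) = 1 := by
  rw [star_mulVec, dotProduct_mulVec, vecMul_vecMul, mem_UG.1 h.2, vecMul_one, hv]

lemma conj_R (h : UG n) (v : Fin n → ℂ) (hv : star v ⬝ᵥ v = 1) (ζ : Circle) :
    h * R v hv ζ * h⁻¹ = R (h.1.1 *ᵥ v) (unit_mulVec h v hv) ζ := by
  rw [mul_inv_eq_iff_eq_mul]
  apply UG_ext
  simp only [Subgroup.coe_mul, Units.val_mul, R_val]
  unfold Rm
  rw [Matrix.mul_add, Matrix.add_mul, Matrix.mul_one, Matrix.one_mul, Matrix.mul_smul, Matrix.smul_mul,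
    star_mulVec, vecMulVec_mul, vecMul_vecMul, mem_UG.1 h.2, vecMul_one, mul_vecMulVec]

/-- For unit vectors `v, v'` there's a reflection mapping v to v' and fixing the orthogonal complement. -/
lemma exists_refl (v v' : Fin n → ℂ) (hv : star v ⬝ᵥ v = 1) (hv' : star v' ⬝ᵥ v' = 1) (hne : v ≠ v') :
    ∃ (w : Fin n → ℂ) (_hw : star w ⬝ᵥ w = 1) (ζ : Circle),
      Rm w ζ *ᵥ v = v' ∧ ∀ u, star v ⬝ᵥ u = 0 → star v' ⬝ᵥ u = 0 → Rm w ζ *ᵥ u = u := by
  set w0 : Fin n → ℂ := v - v' with hw0
  have hw0ne : w0 ≠ 0 := sub_ne_zero.mpr hne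
  set s : ℂ := star w0 ⬝ᵥ v with hs
  have hs1 : s = 1 - star v' ⬝ᵥ v := by rw [hs, hw0, star_sub, sub_dotProduct, hv]
  have hsc : conj s = 1 - star v ⬝ᵥ v' := by
    rw [hs1, map_sub, map_one, starRingEnd_apply, star_dotProduct, star_star]
  have hnorm : star w0 ⬝ᵥ w0 = s + conj s := by
    rw [hsc, hs1, hw0, star_sub, sub_dotProduct, dotProduct_sub, dotProduct_sub, hv, hv']
    ring
  have hre : s + conj s = ((2 * s.re : ℝ) : ℂ) := by
    rw [Complex.add_conj]
  have hpos : 0 < 2 * s.re := by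
    have h1 : 0 < (star w0 ⬝ᵥ w0) := dotProduct_star_self_pos_iff.mpr hw0ne
    rw [hnorm, hre] at h1
    exact_mod_cast h1
  have hs0 : s ≠ 0 := by
    intro h
    rw [h] at hpos
    simp at hpos
  set r : ℝ := Real.sqrt (2 * s.re) with hr
  have hr0 : 0 < r := Real.sqrt_pos.mpr hpos
  have hr2 : (r : ℂ) * r = s + conj s := by
    rw [hre, ← Complex.ofReal_mul, Real.mul_self_sqrt hpos.le]
  have hrne : (r : ℂ) ≠ 0 := by exact_mod_cast hr0.ne'
  have hζ : ‖-(conj s) / s‖ = 1 := by
    rw [norm_div, norm_neg, RCLike.norm_conj]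
    exact div_self (norm_ne_zero_iff.mpr hs0)
  refine ⟨((r : ℂ)⁻¹) • w0, ?_, ⟨-(conj s) / s, mem_sphere_zero_iff_norm.mpr hζ⟩, ?_, ?_⟩
  · rw [star_smul, smul_dotProduct, dotProduct_smul, hnorm, ← hr2]
    simp
    field_simp
  · simp only [Rm]
    rw [add_mulVec, one_mulVec, smul_mulVec, vecMulVec_mulVec, star_smul, smul_dotProduct, ← hs]
    have : ((-(conj s) / s - 1) * ((star (r : ℂ)⁻¹ * s) * (r : ℂ)⁻¹)) = -1 := by
      simp
      field_simp
      rw [pow_two, hr2]
      ring
    ext i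
    simp only [Pi.add_apply, Pi.smul_apply, smul_eq_mul, MulOpposite.smul_eq_mul_unop, MulOpposite.unop_op]
    have h2 : v' i = v i - w0 i := by simp [hw0]
    rw [h2]
    linear_combination (w0 i) * this
  · intro u hu hu'
    simp only [Rm]
    rw [add_mulVec, one_mulVec, smul_mulVec, vecMulVec_mulVec, star_smul, smul_dotProduct]
    have : star w0 ⬝ᵥ u = 0 := by rw [hw0, star_sub, sub_dotProduct, hu, hu', sub_zero]
    rw [this]
    simp


lemma norm_det (g : UG n) : ‖g.1.1.det‖ = 1 := by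
  have h := mem_UG.1 g.2
  have h1 : star (g.1.1.det) * g.1.1.det = 1 := by
    rw [← det_conjTranspose, ← det_mul, h, det_one]
  have h2 : ‖g.1.1.det‖ * ‖g.1.1.det‖ = 1 := by
    have := congrArg norm h1
    rwa [norm_mul, norm_star, norm_one] at this
  nlinarith [norm_nonneg (g.1.1.det), sq_nonneg (‖g.1.1.det‖ - 1)]

/-- determinant as an element of the circle. -/
def detC (g : UG n) : Circle := ⟨g.1.1.det, mem_sphere_zero_iff_norm.mpr (norm_det g)⟩

lemma detC_coe (g : UG n) : ((detC g : Circle) : ℂ) = g.1.1.det := rfl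

lemma detC_mul (g h : UG n) : detC (g * h) = detC g * detC h := by
  apply Circle.ext
  simp [detC_coe]

lemma detC_R (v : Fin n → ℂ) (hv : star v ⬝ᵥ v = 1) (ζ : Circle) : detC (R v hv ζ) = ζ := by
  apply Subtype.ext
  simp [detC, det_Rm v hv]

lemma single_unit (j : Fin n) : star (Pi.single j (1:ℂ) : Fin n → ℂ) ⬝ᵥ Pi.single j 1 = 1 := by
  simp

/-- every character of the unitary group (into a commutative group) factors through det. -/
theorem char_factors {A : Type*} [CommGroup A] (hn : 0 < n) (χ : UG n →* A) (g : UG n) :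
    χ g = χ (R (Pi.single (⟨0, hn⟩ : Fin n) 1) (single_unit _) (detC g)) := by
  set e0 : Fin n → ℂ := Pi.single (⟨0, hn⟩ : Fin n) 1 with he0
  have he0u : star e0 ⬝ᵥ e0 = 1 := single_unit _
  have hR : ∀ (v : Fin n → ℂ) (hv : star v ⬝ᵥ v = 1) (ζ : Circle), χ (R v hv ζ) = χ (R e0 he0u ζ) := by
    intro v hv ζ
    by_cases hve : e0 = v
    · subst hve; rfl
    · obtain ⟨w, hw, ξ, h1, -⟩ := exists_refl e0 v he0u hv hve
      have h2 := conj_R (R w hw ξ) e0 he0u ζ
      have h3 : R ((R w hw ξ).1.1 *ᵥ e0) (unit_mulVec (R w hw ξ) e0 he0u) ζ = R v hv ζ := by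
        apply UG_ext
        simp only [R_val]
        rw [h1]
      rw [h3] at h2
      rw [← h2]
      simp
  have key : ∀ k : ℕ, k ≤ n → ∀ g : UG n, (∀ j : Fin n, k ≤ j.1 → g.1.1 *ᵥ (Pi.single j 1) = Pi.single j 1) →
      χ g = χ (R e0 he0u (detC g)) := by
    intro k
    induction k with
    | zero =>
      intro _ g hg
      have hg1 : g = 1 := by
        apply UG_ext
        ext i j
        have := congrFun (hg j (Nat.zero_le _)) i
        simp only [mulVec_single_one, col_apply] at this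
        rw [this]
        simp [Pi.single_apply, Matrix.one_apply]
      subst hg1
      have : detC (1 : UG n) = 1 := by apply Subtype.ext; simp [detC]
      rw [this, R_one]
    | succ k ih =>
      intro hk g hg
      set ek : Fin n → ℂ := Pi.single (⟨k, hk⟩ : Fin n) 1 with hek
      by_cases hfix : g.1.1 *ᵥ ek = ek
      · apply ih (Nat.le_of_succ_le hk)
        intro j hj
        rcases Nat.eq_or_lt_of_le hj with h | h
        · have : j = ⟨k, hk⟩ := Fin.ext h.symm
          rw [this]; exact hfix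
        · exact hg j h
      · obtain ⟨w, hw, ξ, h1, h2⟩ := exists_refl (g.1.1 *ᵥ ek) ek (unit_mulVec g ek (single_unit _)) (single_unit _) hfix
        have h3 : χ (R w hw ξ * g) = χ (R e0 he0u (detC (R w hw ξ * g))) := by
          apply ih (Nat.le_of_succ_le hk)
          intro j hj
          simp only [Subgroup.coe_mul, Units.val_mul, R_val, ← mulVec_mulVec]
          rcases Nat.eq_or_lt_of_le hj with h | h
          · have : j = ⟨k, hk⟩ := Fin.ext h.symm
            rw [this]; exact h1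
          · rw [hg j h]
            have hjk : (Pi.single (⟨k, hk⟩ : Fin n) (1:ℂ) : Fin n → ℂ) j = 0 := by
              rw [Pi.single_apply, if_neg]
              intro h'
              have := congrArg Fin.val h'
              simp at this; omega
            apply h2
            · rw [star_mulVec, ← hg j h, dotProduct_mulVec, vecMul_vecMul, mem_UG.1 g.2, vecMul_one]
              rw [hek]
              simpa using hjk
            · rw [hek]
              simpa using hjk
        rw [map_mul, detC_mul, detC_R, ← R_mul, map_mul, hR w hw ξ] at h3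
        exact mul_left_cancel h3
  exact key n le_rfl g (fun j hj => absurd j.2 (by omega))

end ReflSec

end Pool.Agent.Helper35.Arch
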