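import Mathlib

set_option autoImplicit false

open scoped SchwartzMap ComplexConjugate
open MeasureTheory Matrix

noncomputable section

namespace Pool.Agent.Helper35.TwistedGGP

/-! ## A-parameters of `GL_n(ℂ)` -/

/-- Unitary characters of `E^× = ℂ^×`; via class field theory these are the irreducible bounded
representations of `W_ℂ = WD_ℂ = ℂ^×`. -/
abbrev UnitaryChar : Type := ℂˣ →ₜ* Circle

/-- Complex conjugation as a continuous automorphism of `ℂ^×`. -/
def conjUnits : ℂˣ →ₜ* ℂˣ where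
  toMonoidHom := Units.map (starRingEnd ℂ : ℂ →* ℂ)
  continuous_toFun := Continuous.units_map _ Complex.continuous_conj

/-- The Galois conjugate `χ^σ(z) = χ(conj z)` of a character `χ` of `ℂ^×`. -/
def UnitaryChar.galConj (χ : UnitaryChar) : UnitaryChar := χ.comp conjUnits

/-- A tempered (semisimple, bounded) representation of `WD_ℂ = ℂ^×`, up to isomorphism: a finite
direct sum of unitary characters. The zero representation is allowed. -/
abbrev TemperedRep : Type := Multiset UnitaryChar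

/-- An A-parameter `M_A = ⊕_i M_i ⊠ Sym^i(ℂ²)` of some `GL_n(ℂ)`: the tempered representation
`M_i` is the value at `i`. The direct sum of parameters is the sum of the functions and
`Finsupp.single i N` is `N ⊠ Sym^i(ℂ²)`. -/
abbrev AParameter : Type := ℕ →₀ TemperedRep

/-- The dimension of an A-parameter. -/
def AParameter.dim (M : AParameter) : ℕ := M.sum fun i N => (i + 1) * Multiset.card N

/-- `μ · N^σ` for a tempered representation `N`. -/
def TemperedRep.twist (μ : UnitaryChar) (N : TemperedRep) : TemperedRep :=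
  Multiset.map (fun χ => μ * UnitaryChar.galConj χ) N

lemma TemperedRep.twist_zero (μ : UnitaryChar) : TemperedRep.twist μ 0 = 0 := rfl

/-- `μ · M_A^σ` for an A-parameter `M_A`. -/
def AParameter.twist (μ : UnitaryChar) (M : AParameter) : AParameter :=
  M.mapRange (TemperedRep.twist μ) (TemperedRep.twist_zero μ)

/-- `M_A ≅ T ⊕ ⊕_j (N_j ⊠ Sym^{d_j} ⊕ μ N_j^σ ⊠ Sym^{d_j - 1})` with `T` tempered, `d_j ≥ 1` and
`N_j` tempered: the shape of `M_A` predicted by Q1. -/
def AParameter.HasQ1Form (μ : UnitaryChar) (M : AParameter) : Prop :=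
  ∃ (T : TemperedRep) (L : List (TemperedRep × ℕ)), (∀ p ∈ L, 1 ≤ p.2) ∧
    M = Finsupp.single 0 T +
      (L.map fun p => Finsupp.single p.2 p.1 +
        Finsupp.single (p.2 - 1) (TemperedRep.twist μ p.1)).sum

/-- Relevant pairs of A-parameters: `M_i = M_i⁺ ⊕ M_i⁻`, `N_i = N_i⁺ ⊕ N_i⁻` with
`M_i⁺ ≅ N_{i+1}⁻` for `i ≥ 0` and `M_i⁻ ≅ N_{i-1}⁺` for `i ≥ 1`. -/
def AParameter.IsRelevantPair (M N : AParameter) : Prop :=
  ∃ Mp Mm Np Nm : ℕ → TemperedRep,
    (∀ i, M i = Mp i + Mm i) ∧ (∀ i, N i = Np i + Nm i) ∧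
    (∀ i, Mp i = Nm (i + 1)) ∧ (∀ i, 1 ≤ i → Mm i = Np (i - 1))

/-! ## Skew-Hermitian spaces over `ℂ` and their unitary groups -/

variable {n : ℕ}

/-- The skew-Hermitian form `⟨v,w⟩ = ∑_j i δ_j v_j conj(w_j)` on `V = ℂⁿ`, `δ_j ∈ ℝ`. Every
nondegenerate skew-Hermitian space over `ℂ` is isometric to one of these with all `δ_j ≠ 0`. -/
def skewForm (δ : Fin n → ℝ) (v w : Fin n → ℂ) : ℂ :=
  ∑ j, Complex.I * (δ j : ℂ) * v j * conj (w j)

/-- The unitary group `U(V) ⊂ GL(V) = GL_n(ℂ)` of the skew-Hermitian space `(ℂⁿ, skewForm δ)`. -/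
def UV (δ : Fin n → ℝ) : Subgroup (GL (Fin n) ℂ) where
  carrier := {g | ∀ v w : Fin n → ℂ,
    skewForm δ ((g : Matrix (Fin n) (Fin n) ℂ) *ᵥ v) ((g : Matrix (Fin n) (Fin n) ℂ) *ᵥ w) =
      skewForm δ v w}
  mul_mem' := by
    intro a b ha hb v w
    have := ha (b.1 *ᵥ v) (b.1 *ᵥ w)
    simp only [Units.val_mul, ← Matrix.mulVec_mulVec]
    rw [this, hb v w]
  one_mem' := by
    intro v w
    simp
  inv_mem' := by
    intro a ha v w
    have := ha (a⁻¹.1 *ᵥ v) (a⁻¹.1 *ᵥ w)
    simp only [Matrix.mulVec_mulVec, Units.mul_inv, Matrix.one_mulVec] at this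
    exact this.symm

/-! ## The Schwartz space, Heisenberg operators and Weil representations -/

/-- The Schwartz space `𝓢(ℝⁿ)` of complex valued functions, the space of the Schroedinger model. -/
def SchwartzFn (n : ℕ) : Type := 𝓢(EuclideanSpace ℝ (Fin n), ℂ)

instance (n : ℕ) : AddCommGroup (SchwartzFn n) := SchwartzMap.instAddCommGroup

instance (n : ℕ) : Module ℂ (SchwartzFn n) := SchwartzMap.instModule

/-- The underlying function `ℝⁿ → ℂ` of an element of the Schwartz space. -/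
def SchwartzFn.fn (f : SchwartzFn n) : EuclideanSpace ℝ (Fin n) → ℂ := SchwartzMap.toFun f

/-- The phase of the Heisenberg operator attached to `w = x + i y`:
`u ↦ ∑_j δ_j (2 y_j u_j + x_j y_j)`. -/
def phase (δ : Fin n → ℝ) (w : Fin n → ℂ) (u : EuclideanSpace ℝ (Fin n)) : ℝ :=
  ∑ j, δ j * (2 * (w j).im * u j + (w j).re * (w j).im)

/-- The real part of a vector of `ℂⁿ`, as a vector of `ℝⁿ`. -/
def reVec (w : Fin n → ℂ) : EuclideanSpace ℝ (Fin n) := WithLp.toLp 2 fun j => (w j).re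

/-- The Heisenberg operator `(ρ(w) f)(u) = ψ(∑_j δ_j (2 y_j u_j + x_j y_j)) f(u + x)`, for
`w = x + i y ∈ V = ℂⁿ` (Schroedinger model, polarisation `V = ℝⁿ ⊕ i ℝⁿ`). One has
`ρ(w) ρ(w') = ψ(Re ⟨w,w'⟩) ρ(w + w')`, so this is the representation with central character `ψ` of
the Heisenberg group of the symplectic space `V` with the form `Tr_{ℂ/ℝ} ⟨v,w⟩`. -/
def heis (δ : Fin n → ℝ) (ψ : AddChar ℝ Circle) (w : Fin n → ℂ)
    (f : EuclideanSpace ℝ (Fin n) → ℂ) : EuclideanSpace ℝ (Fin n) → ℂ :=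
  fun u => (ψ (phase δ w u) : ℂ) * f (u + reVec w)

/-- `ω` is a Weil representation of `U(V)` attached to `ψ`, on the Schwartz space. -/
structure IsWeilRepresentation (δ : Fin n → ℝ) (ψ : AddChar ℝ Circle)
    (ω : Representation ℂ (UV δ) (SchwartzFn n)) : Prop where
  /-- `ω` is unitary for the `L²` inner product. -/
  unitary : ∀ (g : UV δ) (f h : SchwartzFn n),
    ∫ u, (ω g f).fn u * conj ((ω g h).fn u) = ∫ u, f.fn u * conj (h.fn u)
  /-- `ω` is continuous: its matrix coefficients are continuous functions on `U(V)`. -/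
  continuous : ∀ f h : SchwartzFn n, Continuous fun g : UV δ => ∫ u, (ω g f).fn u * conj (h.fn u)
  /-- `ω(g) ρ(w) = ρ(g w) ω(g)`: if `f' = ρ(w) f` then `ω(g) f' = ρ(g w) (ω(g) f)`. -/
  normalizes : ∀ (g : UV δ) (w : Fin n → ℂ) (f f' : SchwartzFn n), f'.fn = heis δ ψ w f.fn →
    (ω g f').fn = heis δ ψ ((g.1 : Matrix (Fin n) (Fin n) ℂ) *ᵥ w) (ω g f).fn

/-! ## One-dimensional representations and the space of `U(V)`-maps -/

/-- The one-dimensional representation `χ ∘ det` of `GL(V) = GL_n(ℂ)` on `ℂ`, for a unitary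
character `χ` of `ℂ^×`. It is the Speh representation attached to `χ ⊠ Sym^{n-1}(ℂ²)`. -/
def charDet (n : ℕ) (χ : UnitaryChar) : Representation ℂ (GL (Fin n) ℂ) ℂ where
  toFun g := ((χ (Matrix.GeneralLinearGroup.det g) : Circle) : ℂ) • LinearMap.id
  map_one' := by
    ext
    simp
  map_mul' g h := by
    ext
    simp [mul_comm]

/-- The A-parameter `χ ⊠ Sym^{n-1}(ℂ²)` of `χ ∘ det`. -/
def charDetParameter (n : ℕ) (χ : UnitaryChar) : AParameter := Finsupp.single (n - 1) {χ}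

/-- `Hom_{U(V)}[τ, ω] ≠ 0` for a representation `τ` of `GL(V)` on a complex vector space `X`: there
is a nonzero linear map `X → 𝓢(ℝⁿ)` which is equivariant for `U(V)`. -/
def HomUVNonzero {X : Type} [AddCommGroup X] [Module ℂ X] (δ : Fin n → ℝ)
    (τ : Representation ℂ (GL (Fin n) ℂ) X) (ω : Representation ℂ (UV δ) (SchwartzFn n)) : Prop :=
  ∃ ℓ : X →ₗ[ℂ] SchwartzFn n, ℓ ≠ 0 ∧
    ∀ (g : UV δ) (x : X), ℓ (τ (g : GL (Fin n) ℂ) x) = ω g (ℓ x)

end Pool.Agent.Helper35.TwistedGGP
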