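import Mathlib
import Pool.Agent.Helper35.TwistedGGPDefs
import Pool.Agent.Helper35.ArchLemmas

set_option autoImplicit false

open scoped SchwartzMap ComplexConjugate FourierTransform RealInnerProductSpace
open MeasureTheory Matrix Real

noncomputable section

namespace Pool.Agent.Helper35.TwistedGGP

variable {n : ℕ}

/-! ## Proofs -/

open Pool.Agent.Helper35.Arch

lemma phase_temperate (δ : Fin n → ℝ) (w : Fin n → ℂ) : Function.HasTemperateGrowth (phase δ w) := by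
  unfold phase
  apply Function.HasTemperateGrowth.sum
  intro j _
  have : Function.HasTemperateGrowth (fun u : EuclideanSpace ℝ (Fin n) => u j) :=
    (EuclideanSpace.proj (𝕜 := ℝ) j : EuclideanSpace ℝ (Fin n) →L[ℝ] ℝ).hasTemperateGrowth
  fun_prop

lemma psi_phase_temperate (δ : Fin n → ℝ) (w : Fin n → ℂ) (ψ : AddChar ℝ Circle) (b : ℝ)
    (hb : ∀ t : ℝ, ((ψ t : Circle) : ℂ) = Complex.exp (((b * t : ℝ) : ℂ) * Complex.I)) :
    Function.HasTemperateGrowth (fun u => ((ψ (phase δ w u) : Circle) : ℂ)) := by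
  simp only [hb]
  exact (exp_temperate b).comp (phase_temperate δ w)

/-- View an element of `SchwartzFn n` as a `SchwartzMap`. -/
def toSM (f : SchwartzFn n) : 𝓢(EuclideanSpace ℝ (Fin n), ℂ) := f

lemma toSM_apply (f : SchwartzFn n) (u : EuclideanSpace ℝ (Fin n)) : toSM f u = f.fn u := rfl

/-- View a `SchwartzMap` as an element of `SchwartzFn n`. -/
def ofSM (F : 𝓢(EuclideanSpace ℝ (Fin n), ℂ)) : SchwartzFn n := F

lemma ofSM_apply (F : 𝓢(EuclideanSpace ℝ (Fin n), ℂ)) (u : EuclideanSpace ℝ (Fin n)) :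
    (ofSM F).fn u = F u := rfl

lemma SchwartzFn.ext {f g : SchwartzFn n} (h : f.fn = g.fn) : f = g :=
  SchwartzMap.ext (f := toSM f) (g := toSM g) (fun x => congrFun h x)

lemma SchwartzFn.smul_fn (c : ℂ) (f : SchwartzFn n) (u : EuclideanSpace ℝ (Fin n)) :
    (c • f).fn u = c * f.fn u := rfl

lemma heis_mem (δ : Fin n → ℝ) (w : Fin n → ℂ) (ψ : AddChar ℝ Circle) (b : ℝ)
    (hb : ∀ t : ℝ, ((ψ t : Circle) : ℂ) = Complex.exp (((b * t : ℝ) : ℂ) * Complex.I))
    (f : SchwartzFn n) : ∃ f' : SchwartzFn n, f'.fn = heis δ ψ w f.fn := by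
  refine ⟨ofSM ((SchwartzMap.smulLeftCLM ℂ
      (fun u => ((ψ (phase δ w u) : Circle) : ℂ))).comp
        (SchwartzMap.compSubConstCLM ℂ (-(reVec w))) (toSM f)), ?_⟩
  funext u
  rw [ofSM_apply]
  simp only [ContinuousLinearMap.comp_apply]
  rw [SchwartzMap.smulLeftCLM_apply_apply (psi_phase_temperate δ w ψ b hb)]
  simp [heis, toSM_apply]

/-- The Heisenberg relations `ρ(w) ρ(w') = ψ(Re ⟨w,w'⟩) ρ(w + w')`. -/
lemma heis_heis (δ : Fin n → ℝ) (ψ : AddChar ℝ Circle) (w w' : Fin n → ℂ)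
    (f : EuclideanSpace ℝ (Fin n) → ℂ) :
    heis δ ψ w (heis δ ψ w' f) = fun u => (ψ (skewForm δ w w').re : ℂ) * heis δ ψ (w + w') f u := by
  funext u
  have h1 : reVec (w + w') = reVec w + reVec w' := by
    ext j
    simp [reVec]
  have h2 : u + reVec w + reVec w' = u + reVec (w + w') := by rw [h1]; abel
  simp only [heis]
  rw [h2, ← mul_assoc, ← mul_assoc, ← Circle.coe_mul, ← Circle.coe_mul, ← AddChar.map_add_eq_mul,
    ← AddChar.map_add_eq_mul]
  congr 3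
  simp only [phase, skewForm, Complex.re_sum, ← Finset.sum_add_distrib]
  apply Finset.sum_congr rfl
  intro j _
  simp [reVec]
  ring


/-- matrix coefficient of Gaussian -/
lemma coef_gauss (ε b : ℝ) (hε : ε ≠ 0) (hb0 : b ≠ 0) (ψ : AddChar ℝ Circle)
    (hb : ∀ t : ℝ, ((ψ t : Circle) : ℂ) = Complex.exp (((b * t : ℝ) : ℂ) * Complex.I))
    (f0 : EuclideanSpace ℝ (Fin n) → ℂ) (hf0 : ∀ u, f0 u = ((Real.exp (-(|b * ε| * ‖u‖ ^ 2)) : ℝ) : ℂ))
    (w : Fin n → ℂ) :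
    ∫ u, heis (fun _ => ε) ψ w f0 u * conj (f0 u) =
      (π / (2 * |b * ε| : ℝ)) ^ ((n : ℂ) / 2) *
        Complex.exp (-(((|b * ε| / 2 * ∑ j, ‖w j‖ ^ 2 : ℝ) : ℂ))) := by
  set a : ℝ := |b * ε| with ha
  have ha0 : 0 < a := abs_pos.mpr (mul_ne_zero hb0 hε)
  have ha2 : a ^ 2 = (b * ε) ^ 2 := sq_abs _
  have h2a : 0 < (((2 * a : ℝ) : ℂ)).re := by simpa using ha0
  have key := GaussianFourier.integral_cexp_neg_mul_sum_add (ι := Fin n) h2a
    (fun j => 2 * b * ε * (w j).im * Complex.I - 2 * a * (w j).re)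
  rw [← (PiLp.volume_preserving_toLp (Fin n)).integral_comp
    (MeasurableEquiv.toLp 2 _).measurableEmbedding]
  have hint : ∀ v : Fin n → ℝ, heis (fun _ => ε) ψ w f0 (WithLp.toLp 2 v) * conj (f0 (WithLp.toLp 2 v)) =
      Complex.exp (((∑ j, (- a * (w j).re ^ 2) : ℝ) : ℂ) + ((∑ j, b * ε * (w j).re * (w j).im : ℝ) : ℂ) * Complex.I) *
      Complex.exp (-((2 * a : ℝ) : ℂ) * ∑ i, (v i : ℂ) ^ 2 + ∑ i, (2 * b * ε * (w i).im * Complex.I - 2 * a * (w i).re) * v i) := by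
    intro v
    simp only [heis]
    rw [hf0, hf0, hb, Complex.conj_ofReal, Complex.ofReal_exp, Complex.ofReal_exp,
      ← Complex.exp_add, ← Complex.exp_add, ← Complex.exp_add]
    congr 1
    simp only [phase, reVec, EuclideanSpace.norm_sq_eq, PiLp.add_apply, Real.norm_eq_abs, sq_abs]
    push_cast
    simp only [Finset.mul_sum, Finset.sum_mul, ← Finset.sum_neg_distrib, ← Finset.sum_add_distrib]
    apply Finset.sum_congr rfl
    intro j _
    ring
  have hint' : (fun v : Fin n → ℝ => heis (fun _ => ε) ψ w f0 (WithLp.toLp 2 v) * conj (f0 (WithLp.toLp 2 v))) = fun v =>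
      Complex.exp (((∑ j, (- a * (w j).re ^ 2) : ℝ) : ℂ) + ((∑ j, b * ε * (w j).re * (w j).im : ℝ) : ℂ) * Complex.I) *
      Complex.exp (-((2 * a : ℝ) : ℂ) * ∑ i, (v i : ℂ) ^ 2 + ∑ i, (2 * b * ε * (w i).im * Complex.I - 2 * a * (w i).re) * v i) :=
    funext hint
  change ∫ v : Fin n → ℝ, heis (fun _ => ε) ψ w f0 (WithLp.toLp 2 v) * conj (f0 (WithLp.toLp 2 v)) = _
  rw [hint', integral_const_mul, key, Fintype.card_fin]
  rw [mul_left_comm, ← Complex.exp_add]
  congr 2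
  have ha' : (a : ℂ) ≠ 0 := by exact_mod_cast ha0.ne'
  have ha2' : (a : ℂ) ^ 2 = ((b : ℂ) * ε) ^ 2 := by exact_mod_cast ha2
  have hnorm : ∀ j, ‖w j‖ ^ 2 = (w j).re ^ 2 + (w j).im ^ 2 := fun j => by
    rw [← Complex.normSq_eq_norm_sq, Complex.normSq_apply]; ring
  simp only [hnorm]
  push_cast
  rw [Finset.sum_div]
  simp only [Finset.mul_sum, Finset.sum_mul, ← Finset.sum_neg_distrib, ← Finset.sum_add_distrib]
  apply Finset.sum_congr rfl
  intro j _
  field_simp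
  linear_combination (4 * ((b : ℂ) * ε * (w j).im) ^ 2) * Complex.I_sq + (4 * ((w j).im : ℂ) ^ 2) * ha2'


/-- the conjugate of a Schwartz function -/
def conjS (f : 𝓢(EuclideanSpace ℝ (Fin n), ℂ)) : 𝓢(EuclideanSpace ℝ (Fin n), ℂ) :=
  SchwartzMap.postcompCLM (𝕜 := ℝ) (Complex.conjCLE : ℂ →L[ℝ] ℂ) f

lemma conjS_apply (f : 𝓢(EuclideanSpace ℝ (Fin n), ℂ)) (u) : conjS f u = conj (f u) := rfl

/-- `u ↦ f(u+x) conj f(u)` -/
def prodS (f : 𝓢(EuclideanSpace ℝ (Fin n), ℂ)) (x : EuclideanSpace ℝ (Fin n)) :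
    𝓢(EuclideanSpace ℝ (Fin n), ℂ) :=
  SchwartzMap.pairing (ContinuousLinearMap.mul ℂ ℂ) (SchwartzMap.compSubConstCLM ℂ (-x) f) (conjS f)

lemma prodS_apply (f : 𝓢(EuclideanSpace ℝ (Fin n), ℂ)) (x u : EuclideanSpace ℝ (Fin n)) :
    prodS f x u = f (u + x) * conj (f u) := by
  unfold prodS
  rw [SchwartzMap.pairing_apply_apply]
  simp [conjS_apply]

lemma fourier_prodS (ε b : ℝ) (hε : ε ≠ 0) (hb0 : b ≠ 0) (ψ : AddChar ℝ Circle)
    (hb : ∀ t : ℝ, ((ψ t : Circle) : ℂ) = Complex.exp (((b * t : ℝ) : ℂ) * Complex.I))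
    (f : 𝓢(EuclideanSpace ℝ (Fin n), ℂ)) (x ξ : EuclideanSpace ℝ (Fin n)) :
    (𝓕 (prodS f x)) ξ = Complex.exp (((π * ⟪x, ξ⟫ : ℝ) : ℂ) * Complex.I) *
      ∫ u, heis (fun _ => ε) ψ (fun j => (x j : ℂ) + ((-(π * ξ j / (b * ε)) : ℝ) : ℂ) * Complex.I) f u * conj (f u) := by
  rw [SchwartzMap.fourier_coe, Real.fourier_eq', ← integral_const_mul]
  congr 1
  funext u
  simp only [heis]
  rw [hb, prodS_apply]
  have hre1 : ∀ p q : ℝ, ((p : ℂ) + (q : ℂ) * Complex.I).re = p := fun p q => by simp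
  have him1 : ∀ p q : ℝ, ((p : ℂ) + (q : ℂ) * Complex.I).im = q := fun p q => by simp
  have hre : reVec (fun j => (x j : ℂ) + ((-(π * ξ j / (b * ε)) : ℝ) : ℂ) * Complex.I) = x := by
    ext j
    simp only [reVec, hre1]
  rw [hre, smul_eq_mul, ← mul_assoc, ← mul_assoc, ← mul_assoc, ← Complex.exp_add]
  congr 3
  simp only [phase, PiLp.inner_apply, RCLike.inner_apply, conj_trivial]
  have h1 : b * ∑ j, ε * (2 * ((x j : ℂ) + ((-(π * ξ j / (b * ε)) : ℝ) : ℂ) * Complex.I).im * u j +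
      ((x j : ℂ) + ((-(π * ξ j / (b * ε)) : ℝ) : ℂ) * Complex.I).re * ((x j : ℂ) + ((-(π * ξ j / (b * ε)) : ℝ) : ℂ) * Complex.I).im)
      = -(2 * π * ∑ j, ξ j * u j) - π * ∑ j, ξ j * x j := by
    simp only [Finset.mul_sum, ← Finset.sum_neg_distrib, ← Finset.sum_sub_distrib]
    apply Finset.sum_congr rfl
    intro j _
    rw [hre1, him1]
    field_simp
    ring
  rw [h1]
  push_cast
  ring

/-- A Schwartz function with the same diagonal matrix coefficient as the Gaussian is a multiple of it. -/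
lemma eq_of_coef (ε b : ℝ) (hε : ε ≠ 0) (hb0 : b ≠ 0) (ψ : AddChar ℝ Circle)
    (hb : ∀ t : ℝ, ((ψ t : Circle) : ℂ) = Complex.exp (((b * t : ℝ) : ℂ) * Complex.I))
    (f f0 : 𝓢(EuclideanSpace ℝ (Fin n), ℂ))
    (h : ∀ w, ∫ u, heis (fun _ => ε) ψ w f u * conj (f u) = ∫ u, heis (fun _ => ε) ψ w f0 u * conj (f0 u))
    (x u : EuclideanSpace ℝ (Fin n)) : f (u + x) * conj (f u) = f0 (u + x) * conj (f0 u) := by
  have h1 : 𝓕 (prodS f x) = 𝓕 (prodS f0 x) := by
    ext ξ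
    rw [fourier_prodS ε b hε hb0 ψ hb, fourier_prodS ε b hε hb0 ψ hb, h]
  have h2 : prodS f x = prodS f0 x := by
    have := congrArg (fun g => 𝓕⁻ g) h1
    simpa using this
  rw [← prodS_apply, h2, prodS_apply]

/-! ### The unitary group of a definite space -/

lemma skewForm_const (ε : ℝ) (v w : Fin n → ℂ) :
    skewForm (fun _ => ε) v w = Complex.I * ε * (star w ⬝ᵥ v) := by
  simp only [skewForm, dotProduct, Finset.mul_sum]
  apply Finset.sum_congr rfl
  intro j _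
  simp only [Pi.star_apply, RCLike.star_def]
  ring

lemma mem_UV_const {ε : ℝ} (hε : ε ≠ 0) {g : GL (Fin n) ℂ} :
    g ∈ UV (fun _ : Fin n => ε) ↔ g ∈ UG n := by
  have hc : Complex.I * (ε : ℂ) ≠ 0 := mul_ne_zero Complex.I_ne_zero (by exact_mod_cast hε)
  rw [mem_UG]
  constructor
  · intro h
    have h1 : ∀ v w : Fin n → ℂ, star (g.1 *ᵥ w) ⬝ᵥ (g.1 *ᵥ v) = star w ⬝ᵥ v := by
      intro v w
      have := h v w
      rw [skewForm_const, skewForm_const] at this
      exact mul_left_cancel₀ hc this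
    ext i j
    have h2 := h1 (Pi.single j 1) (Pi.single i 1)
    rw [star_mulVec, dotProduct_mulVec, vecMul_vecMul, ← dotProduct_mulVec] at h2
    simpa [Matrix.one_apply, Pi.single_apply, eq_comm] using h2
  · intro h v w
    rw [skewForm_const, skewForm_const, star_mulVec, dotProduct_mulVec, vecMul_vecMul, h, vecMul_one]

lemma sum_norm_sq_mulVec (g : UG n) (w : Fin n → ℂ) :
    ∑ j, ‖(g.1.1 *ᵥ w) j‖ ^ 2 = ∑ j, ‖w j‖ ^ 2 := by
  have h : ∀ v : Fin n → ℂ, ((∑ j, ‖v j‖ ^ 2 : ℝ) : ℂ) = star v ⬝ᵥ v := by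
    intro v
    simp only [dotProduct, Pi.star_apply, RCLike.star_def]
    push_cast
    apply Finset.sum_congr rfl
    intro j _
    rw [Complex.conj_mul']
  have h2 : ((∑ j, ‖(g.1.1 *ᵥ w) j‖ ^ 2 : ℝ) : ℂ) = ((∑ j, ‖w j‖ ^ 2 : ℝ) : ℂ) := by
    rw [h, h, star_mulVec, dotProduct_mulVec, vecMul_vecMul, mem_UG.1 g.2, vecMul_one]
  exact_mod_cast h2

/-! ### The Gaussian spans a `U(V)`-stable line -/

theorem gaussian_line (ε b : ℝ) (hε : ε ≠ 0) (hb0 : b ≠ 0) (ψ : AddChar ℝ Circle)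
    (hb : ∀ t : ℝ, ((ψ t : Circle) : ℂ) = Complex.exp (((b * t : ℝ) : ℂ) * Complex.I))
    (ω : Representation ℂ (UV (fun _ : Fin n => ε)) (SchwartzFn n))
    (hω : IsWeilRepresentation (fun _ => ε) ψ ω)
    (f0 : SchwartzFn n) (hf0 : ∀ u, f0.fn u = ((Real.exp (-(|b * ε| * ‖u‖ ^ 2)) : ℝ) : ℂ))
    (g : UV (fun _ : Fin n => ε)) :
    ‖(ω g f0).fn 0‖ = 1 ∧ ω g f0 = ((ω g f0).fn 0) • f0 := by
  have hcoef : ∀ w, ∫ u, heis (fun _ => ε) ψ w (toSM (ω g f0)) u * conj (toSM (ω g f0) u) =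
      ∫ u, heis (fun _ => ε) ψ w (toSM f0) u * conj (toSM f0 u) := by
    intro w
    set w' : Fin n → ℂ := (((g⁻¹ : UV (fun _ : Fin n => ε)) : GL (Fin n) ℂ)).1 *ᵥ w with hw'
    obtain ⟨f', hf'⟩ := heis_mem (fun _ => ε) w' ψ b hb f0
    have h1 : heis (fun _ => ε) ψ w (toSM (ω g f0)) = (ω g f').fn := by
      rw [hω.normalizes g w' f0 f' hf', hw', Matrix.mulVec_mulVec]
      simp
      rfl
    have h3 : ∀ w'', ∫ u, heis (fun _ => ε) ψ w'' f0.fn u * conj (f0.fn u) =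
      (π / (2 * |b * ε| : ℝ)) ^ ((n : ℂ) / 2) *
        Complex.exp (-(((|b * ε| / 2 * ∑ j, ‖w'' j‖ ^ 2 : ℝ) : ℂ))) :=
      fun w'' => coef_gauss ε b hε hb0 ψ hb f0.fn hf0 w''
    have h4 : ∫ u, (ω g f').fn u * conj (toSM (ω g f0) u) =
        ∫ u, heis (fun _ => ε) ψ w' f0.fn u * conj (f0.fn u) := by
      rw [← hf']
      exact hω.unitary g f' f0
    have h5 : ∫ u, heis (fun _ => ε) ψ w (toSM f0) u * conj (toSM f0 u) =
        ∫ u, heis (fun _ => ε) ψ w f0.fn u * conj (f0.fn u) := rfl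
    rw [h1, h4, h5, h3, h3]
    have h2 : ∑ j, ‖w' j‖ ^ 2 = ∑ j, ‖w j‖ ^ 2 :=
      sum_norm_sq_mulVec ⟨((g⁻¹ : UV (fun _ : Fin n => ε)) : GL (Fin n) ℂ),
        (mem_UV_const hε).1 (g⁻¹).2⟩ w
    rw [h2]
  have hprod : ∀ x u : EuclideanSpace ℝ (Fin n),
      (ω g f0).fn (u + x) * conj ((ω g f0).fn u) = f0.fn (u + x) * conj (f0.fn u) :=
    eq_of_coef ε b hε hb0 ψ hb (toSM (ω g f0)) (toSM f0) hcoef
  have hf00 : f0.fn 0 = 1 := by rw [hf0]; simp
  have h0 : (ω g f0).fn 0 * conj ((ω g f0).fn 0) = 1 := by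
    have := hprod 0 0
    rw [add_zero, hf00] at this
    simpa using this
  refine ⟨?_, ?_⟩
  · have h1 : ‖(ω g f0).fn 0‖ * ‖(ω g f0).fn 0‖ = 1 := by
      have := congrArg norm h0
      rwa [norm_mul, RCLike.norm_conj, norm_one] at this
    nlinarith [norm_nonneg ((ω g f0).fn 0)]
  · apply SchwartzFn.ext
    funext x
    have h1 := hprod x 0
    rw [zero_add, hf00, map_one, mul_one] at h1
    have : (ω g f0).fn x = (ω g f0).fn x * (conj ((ω g f0).fn 0) * (ω g f0).fn 0) := by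
      rw [mul_comm (conj ((ω g f0).fn 0)), h0, mul_one]
    rw [this, ← mul_assoc, h1, SchwartzFn.smul_fn, mul_comm]

/-! ### From characters of `U(n)` to characters of `ℂ^×` -/

/-- `z ↦ z / |z|`. -/
def unitPart : ℂˣ →ₜ* Circle where
  toFun z := ⟨(z : ℂ) / ‖(z : ℂ)‖, by
    refine mem_sphere_zero_iff_norm.mpr ?_
    rw [norm_div]
    simp⟩
  map_one' := by
    apply Circle.ext
    change ((1 : ℂˣ) : ℂ) / ‖((1 : ℂˣ) : ℂ)‖ = 1
    simp
  map_mul' z w := by
    apply Circle.ext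
    change ((z * w : ℂˣ) : ℂ) / ‖((z * w : ℂˣ) : ℂ)‖ = (z : ℂ) / ‖(z : ℂ)‖ * ((w : ℂ) / ‖(w : ℂ)‖)
    rw [Units.val_mul, norm_mul]
    push_cast
    have hz : ((‖(z : ℂ)‖ : ℝ) : ℂ) ≠ 0 := by exact_mod_cast norm_ne_zero_iff.mpr z.ne_zero
    have hw : ((‖(w : ℂ)‖ : ℝ) : ℂ) ≠ 0 := by exact_mod_cast norm_ne_zero_iff.mpr w.ne_zero
    field_simp
  continuous_toFun := by
    apply Continuous.subtype_mk
    apply Continuous.div
    · exact Units.continuous_val
    · exact Complex.continuous_ofReal.comp (continuous_norm.comp Units.continuous_val)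
    · intro z
      exact_mod_cast norm_ne_zero_iff.mpr z.ne_zero

lemma unitPart_coe (z : ℂˣ) : ((unitPart z : Circle) : ℂ) = (z : ℂ) / ‖(z : ℂ)‖ := rfl

/-- The character of the definite unitary group on the Gaussian. -/
def gaussChar (ε b : ℝ) (hε : ε ≠ 0) (hb0 : b ≠ 0) (ψ : AddChar ℝ Circle)
    (hb : ∀ t : ℝ, ((ψ t : Circle) : ℂ) = Complex.exp (((b * t : ℝ) : ℂ) * Complex.I))
    (ω : Representation ℂ (UV (fun _ : Fin n => ε)) (SchwartzFn n))
    (hω : IsWeilRepresentation (fun _ => ε) ψ ω)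
    (f0 : SchwartzFn n) (hf0 : ∀ u, f0.fn u = ((Real.exp (-(|b * ε| * ‖u‖ ^ 2)) : ℝ) : ℂ)) : UG n →* Circle where
  toFun g := ⟨(ω ⟨g.1, (mem_UV_const hε).2 g.2⟩ f0).fn 0, mem_sphere_zero_iff_norm.mpr
    (gaussian_line ε b hε hb0 ψ hb ω hω f0 hf0 _).1⟩
  map_one' := by
    apply Circle.ext
    change (ω (1 : UV (fun _ : Fin n => ε)) f0).fn 0 = 1
    rw [map_one]
    change f0.fn 0 = 1
    rw [hf0]; simp
  map_mul' g h := by
    apply Circle.ext
    set g' : UV (fun _ : Fin n => ε) := ⟨g.1, (mem_UV_const hε).2 g.2⟩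
    set h' : UV (fun _ : Fin n => ε) := ⟨h.1, (mem_UV_const hε).2 h.2⟩
    change (ω (g' * h') f0).fn 0 = (ω g' f0).fn 0 * (ω h' f0).fn 0
    rw [map_mul]
    change (ω g' (ω h' f0)).fn 0 = _
    have h1 : ω g' (ω h' f0) = ((ω h' f0).fn 0) • ω g' f0 := by
      conv_lhs => rw [(gaussian_line ε b hε hb0 ψ hb ω hω f0 hf0 h').2]
      rw [map_smul]
    rw [h1, SchwartzFn.smul_fn, mul_comm]

lemma continuous_R (n : ℕ) (v : Fin n → ℂ) (hv : star v ⬝ᵥ v = 1) :
    Continuous fun ζ : Circle => (R v hv ζ : UG n) := by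
  have h1 : Continuous fun ζ : Circle => Rm v (ζ : ℂ) := by
    unfold Rm
    fun_prop
  apply Continuous.subtype_mk
  rw [Units.continuous_iff]
  refine ⟨h1, ?_⟩
  have h2 : Continuous fun ζ : Circle => Rm v ((ζ⁻¹ : Circle) : ℂ) := h1.comp continuous_inv
  exact h2


lemma gaussChar_continuous (ε b : ℝ) (hε : ε ≠ 0) (hb0 : b ≠ 0) (ψ : AddChar ℝ Circle)
    (hb : ∀ t : ℝ, ((ψ t : Circle) : ℂ) = Complex.exp (((b * t : ℝ) : ℂ) * Complex.I))
    (ω : Representation ℂ (UV (fun _ : Fin n => ε)) (SchwartzFn n))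
    (hω : IsWeilRepresentation (fun _ => ε) ψ ω)
    (f0 : SchwartzFn n) (hf0 : ∀ u, f0.fn u = ((Real.exp (-(|b * ε| * ‖u‖ ^ 2)) : ℝ) : ℂ)) :
    Continuous (gaussChar ε b hε hb0 ψ hb ω hω f0 hf0) := by
  set c : ℂ := ∫ u, f0.fn u * conj (f0.fn u) with hc
  have hc0 : c ≠ 0 := by
    have h1 := coef_gauss ε b hε hb0 ψ hb f0.fn hf0 0
    have h2 : heis (fun _ => ε) ψ 0 f0.fn = f0.fn := by
      funext u
      have h20 : reVec (0 : Fin n → ℂ) = 0 := by
        ext j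
        simp [reVec]
      simp only [heis]
      rw [h20]
      simp [phase]
    rw [h2] at h1
    rw [hc, h1]
    apply mul_ne_zero
    · rw [Ne, Complex.cpow_eq_zero_iff]
      intro h
      have : ((π : ℂ) / ((2 * |b * ε| : ℝ) : ℂ)) ≠ 0 := by
        apply div_ne_zero
        · exact_mod_cast Real.pi_ne_zero
        · exact_mod_cast (mul_pos two_pos (abs_pos.mpr (mul_ne_zero hb0 hε))).ne'
      exact this h.1
    · exact Complex.exp_ne_zero _
  have h3 : ∀ g : UG n, ((gaussChar ε b hε hb0 ψ hb ω hω f0 hf0 g : Circle) : ℂ) =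
      (∫ u, (ω ⟨g.1, (mem_UV_const hε).2 g.2⟩ f0).fn u * conj (f0.fn u)) / c := by
    intro g
    set g' : UV (fun _ : Fin n => ε) := ⟨g.1, (mem_UV_const hε).2 g.2⟩ with hg'
    change (ω g' f0).fn 0 = _
    have h4 := (gaussian_line ε b hε hb0 ψ hb ω hω f0 hf0 g').2
    have h5 : ∫ u, (ω g' f0).fn u * conj (f0.fn u) = (ω g' f0).fn 0 * c := by
      rw [hc, ← integral_const_mul]
      congr 1
      funext u
      have h6 : (ω g' f0).fn u = (ω g' f0).fn 0 * f0.fn u := by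
        conv_lhs => rw [h4]
        rw [SchwartzFn.smul_fn]
      rw [h6]
      ring
    rw [h5]
    field_simp
  have h7 : (Subtype.val ∘ fun g : UG n => gaussChar ε b hε hb0 ψ hb ω hω f0 hf0 g) =
      fun g : UG n => (∫ u, (ω ⟨g.1, (mem_UV_const hε).2 g.2⟩ f0).fn u * conj (f0.fn u)) / c := by
    funext g
    exact h3 g
  refine Topology.IsInducing.subtypeVal.continuous_iff.2 ?_
  change Continuous (Subtype.val ∘ fun g : UG n => gaussChar ε b hε hb0 ψ hb ω hω f0 hf0 g)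
  rw [h7]
  apply Continuous.div_const
  have h8 : Continuous fun g : UG n => (⟨g.1, (mem_UV_const hε).2 g.2⟩ : UV (fun _ : Fin n => ε)) :=
    Continuous.subtype_mk continuous_subtype_val _
  exact (hω.continuous f0 f0).comp h8

/-! ### The parameter side -/

lemma charDetParameter_dim (n : ℕ) (hn : 1 ≤ n) (χ : UnitaryChar) :
    (charDetParameter n χ).dim = n := by
  unfold charDetParameter AParameter.dim
  rw [Finsupp.sum_single_index (by simp)]
  simp
  omega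

lemma not_hasQ1Form (n : ℕ) (hn : 2 ≤ n) (μ χ : UnitaryChar) :
    ¬ (charDetParameter n χ).HasQ1Form μ := by
  rintro ⟨T, L, hL, hM⟩
  -- count the constituents
  let cnt : AParameter →+ ℕ :=
    { toFun := fun M => M.sum fun _ N => Multiset.card N
      map_zero' := by simp
      map_add' := fun M N => by
        rw [Finsupp.sum_add_index'] <;> simp }
  have hcs : ∀ (i : ℕ) (N : TemperedRep), cnt (Finsupp.single i N) = Multiset.card N := by
    intro i N
    change (Finsupp.single i N).sum (fun _ N => Multiset.card N) = _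
    rw [Finsupp.sum_single_index (by simp)]
  have hcount : ∀ L : List (TemperedRep × ℕ), cnt ((L.map fun p => Finsupp.single p.2 p.1 +
        Finsupp.single (p.2 - 1) (TemperedRep.twist μ p.1)).sum) =
        2 * (L.map fun p => Multiset.card p.1).sum := by
    intro L
    induction L with
    | nil => simp
    | cons p L ih =>
      rw [List.map_cons, List.sum_cons, map_add, ih, map_add, hcs, hcs]
      simp [TemperedRep.twist]
      ring
  have h1 := congrArg cnt hM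
  rw [map_add, hcount, hcs] at h1
  have h2 : cnt (charDetParameter n χ) = 1 := by
    unfold charDetParameter
    rw [hcs]; simp
  rw [h2] at h1
  have h3 : (L.map fun p => Multiset.card p.1).sum = 0 := by omega
  have h4 : ∀ p ∈ L, p.1 = 0 := by
    intro p hp
    have := List.sum_eq_zero_iff.1 h3 (Multiset.card p.1) (List.mem_map.2 ⟨p, hp, rfl⟩)
    exact Multiset.card_eq_zero.1 this
  have h5 : (L.map fun p => Finsupp.single p.2 p.1 +
        Finsupp.single (p.2 - 1) (TemperedRep.twist μ p.1)).sum = 0 := by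
    rw [List.sum_eq_zero]
    intro x hx
    obtain ⟨p, hp, rfl⟩ := List.mem_map.1 hx
    rw [h4 p hp]
    simp [TemperedRep.twist]
  rw [h5, add_zero] at hM
  have h6 := congrArg (fun M : AParameter => M (n - 1)) hM
  simp only [charDetParameter, Finsupp.single_eq_same] at h6
  rw [Finsupp.single_apply, if_neg (by omega)] at h6
  exact Multiset.singleton_ne_zero _ h6

lemma not_relevant (n : ℕ) (hn : 2 ≤ n) (μ χ : UnitaryChar) :
    ¬ (charDetParameter n χ).IsRelevantPair ((charDetParameter n χ).twist μ) := by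
  rintro ⟨Mp, Mm, Np, Nm, hM, hN, h1, h2⟩
  have hNz : ∀ i, i ≠ n - 1 → ((charDetParameter n χ).twist μ) i = 0 := by
    intro i hi
    rw [AParameter.twist, Finsupp.mapRange_apply, charDetParameter, Finsupp.single_apply,
      if_neg (fun h => hi h.symm), TemperedRep.twist_zero]
  have h3 : Mp (n - 1) = 0 := by
    rw [h1]
    have h4 := hN (n - 1 + 1)
    rw [hNz _ (by omega)] at h4
    have := (add_eq_zero.1 h4.symm).2
    exact this
  have h5 : Mm (n - 1) = 0 := by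
    rw [h2 (n - 1) (by omega)]
    have h4 := hN (n - 1 - 1)
    rw [hNz _ (by omega)] at h4
    exact (add_eq_zero.1 h4.symm).1
  have h6 := hM (n - 1)
  rw [h3, h5] at h6
  simp [charDetParameter] at h6

/-! ## The theorem -/

theorem main (n : ℕ) (hn : 2 ≤ n) (ε : ℝ) (hε : ε = 1 ∨ ε = -1)
    (ψ : AddChar ℝ Circle) (hψc : Continuous ψ) (hψ : ψ ≠ 1) (μ : UnitaryChar)
    (ω : Representation ℂ (UV (fun _ : Fin n => ε)) (SchwartzFn n))
    (hω : IsWeilRepresentation (fun _ : Fin n => ε) ψ ω) :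
    ∃ χ₀ : UnitaryChar, ∀ χ : UnitaryChar, (∀ z : ℂˣ, ‖(z : ℂ)‖ = 1 → χ z = χ₀ z) →
      HomUVNonzero (fun _ : Fin n => ε) (charDet n χ) ω ∧
      (charDetParameter n χ).dim = n ∧
      ¬ (charDetParameter n χ).HasQ1Form μ ∧
      ¬ (charDetParameter n χ).IsRelevantPair ((charDetParameter n χ).twist μ) := by
  have hε0 : ε ≠ 0 := by rcases hε with h | h <;> rw [h] <;> norm_num
  obtain ⟨b, hb⟩ := addChar_real_eq_exp ψ hψc
  have hb0 : b ≠ 0 := by
    rintro rfl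
    apply hψ
    ext t
    rw [hb t]
    simp
  set f0 : SchwartzFn n := ofSM (SchwartzMap.postcompCLM (𝕜 := ℝ) (Complex.ofRealCLM : ℝ →L[ℝ] ℂ)
      (gaussR |b * ε| (abs_pos.mpr (mul_ne_zero hb0 hε0)))) with hf0def
  have hf0 : ∀ u, f0.fn u = ((Real.exp (-(|b * ε| * ‖u‖ ^ 2)) : ℝ) : ℂ) := fun u => rfl
  have hn0 : 0 < n := by omega
  set χg := gaussChar ε b hε0 hb0 ψ hb ω hω f0 hf0 with hχg
  have hχgc : Continuous χg := gaussChar_continuous ε b hε0 hb0 ψ hb ω hω f0 hf0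
  set e0 : Fin n → ℂ := Pi.single (⟨0, hn0⟩ : Fin n) 1 with he0
  -- the character of the circle
  let χ₁ : Circle →ₜ* Circle :=
    { toFun := fun ζ => χg (R e0 (single_unit _) ζ)
      map_one' := by rw [R_one, map_one]
      map_mul' := fun ζ ξ => by rw [← R_mul, map_mul]
      continuous_toFun := hχgc.comp (continuous_R n e0 (single_unit _)) }
  have hχ₁ : ∀ g : UG n, χg g = χ₁ (detC g) := fun g => char_factors hn0 χg g
  refine ⟨χ₁.comp unitPart, fun χ hχ => ⟨?_, charDetParameter_dim n (by omega) χ,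
    not_hasQ1Form n hn μ χ, not_relevant n hn μ χ⟩⟩
  refine ⟨LinearMap.toSpanSingleton ℂ _ f0, ?_, ?_⟩
  · intro h
    have h4 := congrArg (fun ℓ : ℂ →ₗ[ℂ] SchwartzFn n => (ℓ 1).fn 0) h
    simp only [LinearMap.toSpanSingleton_apply, one_smul, LinearMap.zero_apply] at h4
    rw [hf0] at h4
    change _ = (0 : ℂ) at h4
    simp at h4
  · intro g x
    set g' : UG n := ⟨g.1, (mem_UV_const hε0).1 g.2⟩ with hg'
    have h1 : ω g f0 = (((χg g' : Circle) : ℂ)) • f0 :=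
      (gaussian_line ε b hε0 hb0 ψ hb ω hω f0 hf0 g).2
    have h2 : χ (Matrix.GeneralLinearGroup.det (g : GL (Fin n) ℂ)) = χg g' := by
      have h3 : ‖((Matrix.GeneralLinearGroup.det (g : GL (Fin n) ℂ) : ℂˣ) : ℂ)‖ = 1 := by
        exact norm_det g'
      rw [hχ _ h3, hχ₁]
      change χ₁ (unitPart _) = _
      congr 1
      apply Circle.ext
      rw [unitPart_coe, h3]
      simp [detC_coe, hg']
    simp only [LinearMap.toSpanSingleton_apply, map_smul, h1]
    simp only [charDet, MonoidHom.coe_mk, OneHom.coe_mk, LinearMap.smul_apply, LinearMap.id_apply,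
      h2, smul_eq_mul, smul_smul]
    rw [mul_comm]

end Pool.Agent.Helper35.TwistedGGP
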