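import Mathlib
import Pool.Agent.Helper35.TwistedGGPDefs
import Pool.Agent.Helper35.ArchLemmas
import Pool.Agent.Helper35.TwistedGGPProofs

set_option autoImplicit false

open scoped SchwartzMap ComplexConjugate FourierTransform RealInnerProductSpace
open MeasureTheory Matrix Real

noncomputable section

namespace Pool.Agent.Helper35.TwistedGGP

open Pool.Agent.Helper35.Arch

variable {n : ℕ}

/-- Heisenberg operator as a continuous linear map of the Schwartz space. -/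
def hs (δ : Fin n → ℝ) (ψ : AddChar ℝ Circle) (w : Fin n → ℂ) :
    𝓢(EuclideanSpace ℝ (Fin n), ℂ) →L[ℂ] 𝓢(EuclideanSpace ℝ (Fin n), ℂ) :=
  (SchwartzMap.smulLeftCLM ℂ (fun u => ((ψ (phase δ w u) : Circle) : ℂ))).comp
    (SchwartzMap.compSubConstCLM ℂ (-(reVec w)))

section

variable (δ : Fin n → ℝ) (ψ : AddChar ℝ Circle) (b : ℝ)
    (hb : ∀ t : ℝ, ((ψ t : Circle) : ℂ) = Complex.exp (((b * t : ℝ) : ℂ) * Complex.I))

include hb

lemma hs_apply (w : Fin n → ℂ) (f : 𝓢(EuclideanSpace ℝ (Fin n), ℂ)) (u : EuclideanSpace ℝ (Fin n)) :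
    hs δ ψ w f u = ((ψ (phase δ w u) : Circle) : ℂ) * f (u + reVec w) := by
  unfold hs
  simp only [ContinuousLinearMap.comp_apply]
  rw [SchwartzMap.smulLeftCLM_apply_apply (psi_phase_temperate δ w ψ b hb)]
  simp

lemma hs_apply' (w : Fin n → ℂ) (f : 𝓢(EuclideanSpace ℝ (Fin n), ℂ)) (u : EuclideanSpace ℝ (Fin n)) :
    hs δ ψ w f u = heis δ ψ w f u := hs_apply δ ψ b hb w f u

end

/-- `T` intertwines along the real-linear map `S` of `V` and is isometric. -/
structure Intertw (δ : Fin n → ℝ) (ψ : AddChar ℝ Circle) (S : (Fin n → ℂ) → (Fin n → ℂ))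
    (T : 𝓢(EuclideanSpace ℝ (Fin n), ℂ) ≃ₗ[ℂ] 𝓢(EuclideanSpace ℝ (Fin n), ℂ)) : Prop where
  iso : ∀ f h, ∫ u, T f u * conj (T h u) = ∫ u, f u * conj (h u)
  comm : ∀ w f, T (hs δ ψ w f) = hs δ ψ (S w) (T f)

lemma Intertw.one (δ : Fin n → ℝ) (ψ : AddChar ℝ Circle) : Intertw δ ψ id (LinearEquiv.refl ℂ _) :=
  ⟨fun _ _ => rfl, fun _ _ => rfl⟩

lemma Intertw.mul {δ : Fin n → ℝ} {ψ : AddChar ℝ Circle} {S₁ S₂ : (Fin n → ℂ) → (Fin n → ℂ)}
    {T₁ T₂ : 𝓢(EuclideanSpace ℝ (Fin n), ℂ) ≃ₗ[ℂ] 𝓢(EuclideanSpace ℝ (Fin n), ℂ)}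
    (h₁ : Intertw δ ψ S₁ T₁) (h₂ : Intertw δ ψ S₂ T₂) : Intertw δ ψ (S₁ ∘ S₂) (T₂.trans T₁) :=
  ⟨fun f h => by simp only [LinearEquiv.trans_apply]; rw [h₁.iso, h₂.iso],
    fun w f => by simp only [LinearEquiv.trans_apply, Function.comp]; rw [h₂.comm, h₁.comm]⟩

lemma Intertw.inv {δ : Fin n → ℝ} {ψ : AddChar ℝ Circle} {S S' : (Fin n → ℂ) → (Fin n → ℂ)}
    {T : 𝓢(EuclideanSpace ℝ (Fin n), ℂ) ≃ₗ[ℂ] 𝓢(EuclideanSpace ℝ (Fin n), ℂ)}
    (h : Intertw δ ψ S T) (hS : ∀ w, S (S' w) = w) : Intertw δ ψ S' T.symm := by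
  refine ⟨fun f k => ?_, fun w f => ?_⟩
  · rw [← h.iso]; simp
  · apply T.injective
    rw [h.comm, hS]
    simp

/-- isometric multiplication operator by a unimodular function of temperate growth -/
def mulEquiv (m : EuclideanSpace ℝ (Fin n) → ℂ) (hm : Function.HasTemperateGrowth m)
    (hm' : Function.HasTemperateGrowth (fun u => conj (m u))) (hu : ∀ u, m u * conj (m u) = 1) :
    𝓢(EuclideanSpace ℝ (Fin n), ℂ) ≃ₗ[ℂ] 𝓢(EuclideanSpace ℝ (Fin n), ℂ) where
  toFun := SchwartzMap.smulLeftCLM ℂ m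
  map_add' := map_add _
  map_smul' := map_smul _
  invFun := SchwartzMap.smulLeftCLM ℂ (fun u => conj (m u))
  left_inv f := by
    ext u
    rw [SchwartzMap.smulLeftCLM_apply_apply hm', SchwartzMap.smulLeftCLM_apply_apply hm, smul_smul,
      mul_comm, hu, one_smul]
  right_inv f := by
    ext u
    rw [SchwartzMap.smulLeftCLM_apply_apply hm, SchwartzMap.smulLeftCLM_apply_apply hm', smul_smul,
      hu, one_smul]

lemma mulEquiv_apply (m : EuclideanSpace ℝ (Fin n) → ℂ) (hm : Function.HasTemperateGrowth m)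
    (hm' : Function.HasTemperateGrowth (fun u => conj (m u))) (hu : ∀ u, m u * conj (m u) = 1)
    (f : 𝓢(EuclideanSpace ℝ (Fin n), ℂ)) (u : EuclideanSpace ℝ (Fin n)) :
    mulEquiv m hm hm' hu f u = m u * f u := by
  change SchwartzMap.smulLeftCLM ℂ m f u = _
  rw [SchwartzMap.smulLeftCLM_apply_apply hm, smul_eq_mul]

lemma mulEquiv_iso (m : EuclideanSpace ℝ (Fin n) → ℂ) (hm : Function.HasTemperateGrowth m)
    (hm' : Function.HasTemperateGrowth (fun u => conj (m u))) (hu : ∀ u, m u * conj (m u) = 1)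
    (f h : 𝓢(EuclideanSpace ℝ (Fin n), ℂ)) :
    ∫ u, mulEquiv m hm hm' hu f u * conj (mulEquiv m hm hm' hu h u) = ∫ u, f u * conj (h u) := by
  congr 1
  funext u
  rw [mulEquiv_apply, mulEquiv_apply, map_mul]
  linear_combination (f u * conj (h u)) * hu u

/-- the quadratic chirp `u ↦ exp(i c u_j²)` -/
def chirp (j : Fin n) (c : ℝ) (u : EuclideanSpace ℝ (Fin n)) : ℂ :=
  Complex.exp (((c * (u j) ^ 2 : ℝ) : ℂ) * Complex.I)

lemma chirp_temperate (j : Fin n) (c : ℝ) : Function.HasTemperateGrowth (chirp (n := n) j c) := by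
  have h1 : Function.HasTemperateGrowth (fun u : EuclideanSpace ℝ (Fin n) => u j) :=
    (EuclideanSpace.proj (𝕜 := ℝ) j : EuclideanSpace ℝ (Fin n) →L[ℝ] ℝ).hasTemperateGrowth
  have h2 : Function.HasTemperateGrowth (fun u : EuclideanSpace ℝ (Fin n) => (u j) ^ 2) := h1.pow 2
  exact (exp_temperate c).comp h2

lemma conj_chirp (j : Fin n) (c : ℝ) (u : EuclideanSpace ℝ (Fin n)) :
    conj (chirp j c u) = chirp j (-c) u := by
  unfold chirp
  rw [← Complex.exp_conj, map_mul, Complex.conj_ofReal, Complex.conj_I]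
  congr 1
  push_cast
  ring

lemma chirp_mul_conj (j : Fin n) (c : ℝ) (u : EuclideanSpace ℝ (Fin n)) :
    chirp j c u * conj (chirp j c u) = 1 := by
  rw [conj_chirp]
  unfold chirp
  rw [← Complex.exp_add]
  have : ((c * (u j) ^ 2 : ℝ) : ℂ) * Complex.I + ((-c * (u j) ^ 2 : ℝ) : ℂ) * Complex.I = 0 := by
    push_cast; ring
  rw [this, Complex.exp_zero]

lemma conj_chirp_temperate (j : Fin n) (c : ℝ) :
    Function.HasTemperateGrowth (fun u => conj (chirp (n := n) j c u)) := by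
  simp only [conj_chirp]
  exact chirp_temperate j (-c)

/-- multiplication by the chirp -/
def chirpEquiv (j : Fin n) (c : ℝ) :
    𝓢(EuclideanSpace ℝ (Fin n), ℂ) ≃ₗ[ℂ] 𝓢(EuclideanSpace ℝ (Fin n), ℂ) :=
  mulEquiv (chirp j c) (chirp_temperate j c) (conj_chirp_temperate j c) (chirp_mul_conj j c)

lemma chirpEquiv_apply (j : Fin n) (c : ℝ) (f : 𝓢(EuclideanSpace ℝ (Fin n), ℂ))
    (u : EuclideanSpace ℝ (Fin n)) : chirpEquiv j c f u = chirp j c u * f u := mulEquiv_apply _ _ _ _ _ _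

/-- the shear in the `y_j` direction -/
def shearY (j : Fin n) (a : ℝ) (w : Fin n → ℂ) : Fin n → ℂ :=
  Function.update w j (((w j).re : ℂ) + (((w j).im + a * (w j).re : ℝ) : ℂ) * Complex.I)

/-- the shear in the `x_j` direction -/
def shearX (j : Fin n) (a : ℝ) (w : Fin n → ℂ) : Fin n → ℂ :=
  Function.update w j ((((w j).re + a * (w j).im : ℝ) : ℂ) + ((w j).im : ℂ) * Complex.I)

lemma intertw_shearY (ε b : ℝ) (ψ : AddChar ℝ Circle)
    (hb : ∀ t : ℝ, ((ψ t : Circle) : ℂ) = Complex.exp (((b * t : ℝ) : ℂ) * Complex.I))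
    (j : Fin n) (a : ℝ) :
    Intertw (fun _ => ε) ψ (shearY j a) (chirpEquiv j (-(b * ε * a))) := by
  refine ⟨mulEquiv_iso _ _ _ _, fun w f => ?_⟩
  ext u
  rw [chirpEquiv_apply, hs_apply _ _ b hb, hs_apply _ _ b hb, chirpEquiv_apply]
  have h1 : reVec (shearY j a w) = reVec w := by
    ext i
    simp only [reVec, shearY]
    by_cases h : i = j
    · subst h; simp
    · simp [Function.update_of_ne h]
  rw [h1, hb, hb, ← mul_assoc, ← mul_assoc]
  congr 1
  unfold chirp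
  rw [← Complex.exp_add, ← Complex.exp_add]
  congr 1
  rw [← add_mul, ← add_mul, ← Complex.ofReal_add, ← Complex.ofReal_add]
  congr 2
  have h2 : phase (fun _ => ε) (shearY j a w) u = phase (fun _ => ε) w u +
      ε * (2 * (a * (w j).re) * u j + (w j).re * (a * (w j).re)) := by
    unfold phase
    rw [← Finset.add_sum_erase _ _ (Finset.mem_univ j), ← Finset.add_sum_erase (a := j) _ (fun j => ε * (2 * (w j).im * u j + (w j).re * (w j).im)) (Finset.mem_univ j)]
    have h3 : ∀ i ∈ Finset.univ.erase j, ε * (2 * (shearY j a w i).im * u i + (shearY j a w i).re * (shearY j a w i).im) =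
        ε * (2 * (w i).im * u i + (w i).re * (w i).im) := by
      intro i hi
      rw [shearY, Function.update_of_ne (Finset.ne_of_mem_erase hi)]
    rw [Finset.sum_congr rfl h3]
    simp [shearY]
    ring
  rw [h2]
  simp [reVec]
  ring


lemma fourier_hs (ε b : ℝ) (ψ : AddChar ℝ Circle)
    (hb : ∀ t : ℝ, ((ψ t : Circle) : ℂ) = Complex.exp (((b * t : ℝ) : ℂ) * Complex.I))
    (w : Fin n → ℂ) (f : 𝓢(EuclideanSpace ℝ (Fin n), ℂ)) (ξ : EuclideanSpace ℝ (Fin n)) :
    (𝓕 (hs (fun _ => ε) ψ w f)) ξ =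
      Complex.exp (((∑ j, (2 * π * (w j).re * ξ j - b * ε * (w j).re * (w j).im) : ℝ) : ℂ) * Complex.I) *
        (𝓕 f) (ξ - WithLp.toLp 2 (fun j => b * ε * (w j).im / π)) := by
  rw [SchwartzMap.fourier_coe, SchwartzMap.fourier_coe, Real.fourier_eq', Real.fourier_eq']
  have h1 : ∫ v : EuclideanSpace ℝ (Fin n), Complex.exp (((-2 * π * ⟪v, ξ⟫ : ℝ) : ℂ) * Complex.I) •
      (hs (fun _ => ε) ψ w f) v = ∫ v : EuclideanSpace ℝ (Fin n),
      Complex.exp (((-2 * π * ⟪v - reVec w, ξ⟫ : ℝ) : ℂ) * Complex.I) •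
      (hs (fun _ => ε) ψ w f) (v - reVec w) :=
    (integral_sub_right_eq_self (fun v => Complex.exp (((-2 * π * ⟪v, ξ⟫ : ℝ) : ℂ) * Complex.I) •
      (hs (fun _ => ε) ψ w f) v) (reVec w)).symm
  rw [h1, ← integral_const_mul]
  congr 1
  funext v
  rw [hs_apply _ _ b hb, sub_add_cancel, hb, smul_eq_mul, smul_eq_mul, ← mul_assoc, ← mul_assoc,
    ← Complex.exp_add, ← Complex.exp_add]
  congr 2
  rw [← add_mul, ← add_mul, ← Complex.ofReal_add, ← Complex.ofReal_add]
  congr 2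
  simp only [phase, PiLp.inner_apply, RCLike.inner_apply, conj_trivial, reVec, PiLp.sub_apply,
    Finset.mul_sum, ← Finset.sum_add_distrib]
  apply Finset.sum_congr rfl
  intro j _
  field_simp
  ring

/-- the Fourier multiplier operator attached to the chirp -/
def fchirpEquiv (j : Fin n) (c : ℝ) :
    𝓢(EuclideanSpace ℝ (Fin n), ℂ) ≃ₗ[ℂ] 𝓢(EuclideanSpace ℝ (Fin n), ℂ) :=
  ((FourierTransform.fourierCLE ℂ 𝓢(EuclideanSpace ℝ (Fin n), ℂ)).toLinearEquiv.trans
    (chirpEquiv j c)).trans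
    (FourierTransform.fourierCLE ℂ 𝓢(EuclideanSpace ℝ (Fin n), ℂ)).symm.toLinearEquiv

lemma fourier_fchirp (j : Fin n) (c : ℝ) (f : 𝓢(EuclideanSpace ℝ (Fin n), ℂ)) :
    𝓕 (fchirpEquiv j c f) = chirpEquiv j c (𝓕 f) := by
  change 𝓕 (𝓕⁻ (chirpEquiv j c (𝓕 f))) = _
  exact FourierTransform.fourier_fourierInv_eq _

lemma plancherel (f h : 𝓢(EuclideanSpace ℝ (Fin n), ℂ)) :
    ∫ u, (𝓕 f) u * conj ((𝓕 h) u) = ∫ u, f u * conj (h u) := by
  have := SchwartzMap.integral_inner_fourier_fourier h f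
  simp only [RCLike.inner_apply] at this
  exact this

lemma intertw_shearX (ε b : ℝ) (hε : ε ≠ 0) (hb0 : b ≠ 0) (ψ : AddChar ℝ Circle)
    (hb : ∀ t : ℝ, ((ψ t : Circle) : ℂ) = Complex.exp (((b * t : ℝ) : ℂ) * Complex.I))
    (j : Fin n) (a : ℝ) :
    Intertw (fun _ => ε) ψ (shearX j a) (fchirpEquiv j (π ^ 2 * a / (b * ε))) := by
  refine ⟨fun f h => ?_, fun w f => ?_⟩
  · rw [← plancherel, fourier_fchirp, fourier_fchirp]
    rw [← plancherel f h]
    exact mulEquiv_iso _ _ _ _ _ _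
  · have hinj : Function.Injective (fun f : 𝓢(EuclideanSpace ℝ (Fin n), ℂ) => 𝓕 f) :=
      (FourierTransform.fourierCLE ℂ 𝓢(EuclideanSpace ℝ (Fin n), ℂ)).injective
    apply hinj
    ext ξ
    change (𝓕 (fchirpEquiv j (π ^ 2 * a / (b * ε)) (hs (fun _ => ε) ψ w f))) ξ =
      (𝓕 (hs (fun _ => ε) ψ (shearX j a w) (fchirpEquiv j (π ^ 2 * a / (b * ε)) f))) ξ
    rw [fourier_fchirp, chirpEquiv_apply, fourier_hs ε b ψ hb, fourier_hs ε b ψ hb, fourier_fchirp,
      chirpEquiv_apply]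
    have him : ∀ i, (shearX j a w i).im = (w i).im := by
      intro i
      unfold shearX
      by_cases h : i = j
      · subst h; simp
      · rw [Function.update_of_ne h]
    have hre : ∀ i, i ≠ j → (shearX j a w i).re = (w i).re := by
      intro i h
      unfold shearX
      rw [Function.update_of_ne h]
    have hrej : (shearX j a w j).re = (w j).re + a * (w j).im := by
      unfold shearX
      simp
    simp only [him]
    rw [← mul_assoc, ← mul_assoc]
    congr 1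
    unfold chirp
    rw [← Complex.exp_add, ← Complex.exp_add]
    congr 1
    rw [← add_mul, ← add_mul, ← Complex.ofReal_add, ← Complex.ofReal_add]
    congr 2
    rw [← Finset.add_sum_erase _ _ (Finset.mem_univ j),
      ← Finset.add_sum_erase (a := j) _
        (fun j_1 => 2 * π * (shearX j a w j_1).re * ξ j_1 - b * ε * (shearX j a w j_1).re * (w j_1).im)
        (Finset.mem_univ j)]
    have h3 : ∀ i ∈ Finset.univ.erase j, 2 * π * (shearX j a w i).re * ξ i - b * ε * (shearX j a w i).re * (w i).im =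
        2 * π * (w i).re * ξ i - b * ε * (w i).re * (w i).im := by
      intro i hi
      rw [hre i (Finset.ne_of_mem_erase hi)]
    rw [Finset.sum_congr rfl h3, hrej]
    simp only [PiLp.sub_apply]
    field_simp
    ring

/-- the rotation `w_j ↦ e^{iθ} w_j`, as a product of three shears -/
lemma rot_eq (j : Fin n) (θ : ℝ) (hθ : Real.cos (θ / 2) ≠ 0) (w : Fin n → ℂ) :
    shearY j (Real.tan (θ / 2)) (shearX j (-Real.sin θ) (shearY j (Real.tan (θ / 2)) w)) =
      Function.update w j (Complex.exp ((θ : ℂ) * Complex.I) * w j) := by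
  have h1 : Real.sin θ = 2 * Real.sin (θ / 2) * Real.cos (θ / 2) := by
    rw [← Real.sin_two_mul]; congr 1; ring
  have h2 : Real.cos θ = 2 * Real.cos (θ / 2) ^ 2 - 1 := by
    rw [← Real.cos_two_mul]; congr 1; ring
  have h3 : Real.sin (θ / 2) ^ 2 + Real.cos (θ / 2) ^ 2 = 1 := Real.sin_sq_add_cos_sq _
  have h4 : Real.tan (θ / 2) = Real.sin (θ / 2) / Real.cos (θ / 2) := Real.tan_eq_sin_div_cos _
  funext i
  by_cases h : i = j
  · subst h
    simp only [shearY, shearX, Function.update_self]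
    have h5 : Complex.exp ((θ : ℂ) * Complex.I) = (Real.cos θ : ℂ) + (Real.sin θ : ℂ) * Complex.I := by
      rw [Complex.exp_mul_I, Complex.ofReal_cos, Complex.ofReal_sin]
    rw [h5]
    have hre1 : ∀ p q : ℝ, ((p : ℂ) + (q : ℂ) * Complex.I).re = p := fun p q => by simp
    have him1 : ∀ p q : ℝ, ((p : ℂ) + (q : ℂ) * Complex.I).im = q := fun p q => by simp
    have hmul : ∀ p q x y : ℝ, ((p : ℂ) + (q : ℂ) * Complex.I) * ((x : ℂ) + (y : ℂ) * Complex.I) =
        ((p * x - q * y : ℝ) : ℂ) + ((p * y + q * x : ℝ) : ℂ) * Complex.I := fun p q x y => by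
      push_cast
      linear_combination (q : ℂ) * y * Complex.I_sq
    have hw : w i = ((w i).re : ℂ) + ((w i).im : ℂ) * Complex.I := (Complex.re_add_im _).symm
    simp only [hre1, him1]
    conv_rhs => rw [hw, hmul]
    have hc : Real.cos (θ / 2) ≠ 0 := hθ
    congr 1
    · congr 1
      rw [h4, h2, h1]
      field_simp
      linear_combination (-2 * (w i).re) * h3
    · congr 2
      rw [h4, h2, h1]
      field_simp
      linear_combination (-2 * Real.cos (θ / 2) * (w i).im - 2 * Real.sin (θ / 2) * (w i).re) * h3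
  · simp [shearY, shearX, Function.update_of_ne h]

end Pool.Agent.Helper35.TwistedGGP
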