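import Mathlib
import Pool.Agent.Helper35.TwistedGGPExist1

set_option autoImplicit false

open scoped SchwartzMap ComplexConjugate FourierTransform RealInnerProductSpace ComplexOrder
open MeasureTheory Matrix Real

noncomputable section

namespace Pool.Agent.Helper35.TwistedGGP

open Pool.Agent.Helper35.Arch

variable {n : ℕ}

/-- A subgroup of the unitary group containing all complex reflections is everything. -/
theorem subgroup_eq_top (H : Subgroup (UG n))
    (hH : ∀ (v : Fin n → ℂ) (hv : star v ⬝ᵥ v = 1) (ζ : Circle), R v hv ζ ∈ H) : H = ⊤ := by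
  rw [Subgroup.eq_top_iff']
  have key : ∀ k : ℕ, k ≤ n → ∀ g : UG n,
      (∀ j : Fin n, k ≤ j.1 → g.1.1 *ᵥ (Pi.single j 1) = Pi.single j 1) → g ∈ H := by
    intro k
    induction k with
    | zero =>
      intro _ g hg
      have hg1 : g = 1 := by
        apply UG_ext
        ext i j
        have := congrFun (hg j (Nat.zero_le _)) i
        simp only [mulVec_single_one, col_apply] at this
        rw [this]
        simp [Pi.single_apply, Matrix.one_apply]
      rw [hg1]
      exact H.one_mem
    | succ k ih =>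
      intro hk g hg
      set ek : Fin n → ℂ := Pi.single (⟨k, hk⟩ : Fin n) 1 with hek
      by_cases hfix : g.1.1 *ᵥ ek = ek
      · apply ih (Nat.le_of_succ_le hk)
        intro j hj
        rcases Nat.eq_or_lt_of_le hj with h | h
        · have : j = ⟨k, hk⟩ := Fin.ext h.symm
          rw [this]; exact hfix
        · exact hg j h
      · obtain ⟨w, hw, ξ, h1, h2⟩ := exists_refl (g.1.1 *ᵥ ek) ek (unit_mulVec g ek (single_unit _)) (single_unit _) hfix
        have h3 : R w hw ξ * g ∈ H := by
          apply ih (Nat.le_of_succ_le hk)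
          intro j hj
          simp only [Subgroup.coe_mul, Units.val_mul, R_val, ← mulVec_mulVec]
          rcases Nat.eq_or_lt_of_le hj with h | h
          · have : j = ⟨k, hk⟩ := Fin.ext h.symm
            rw [this]; exact h1
          · rw [hg j h]
            have hjk : (Pi.single (⟨k, hk⟩ : Fin n) (1:ℂ) : Fin n → ℂ) j = 0 := by
              rw [Pi.single_apply, if_neg]
              intro h'
              have := congrArg Fin.val h'
              simp at this; omega
            apply h2
            · rw [star_mulVec, ← hg j h, dotProduct_mulVec, vecMul_vecMul, mem_UG.1 g.2, vecMul_one]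
              rw [hek]
              simpa using hjk
            · rw [hek]
              simpa using hjk
        exact (H.mul_mem_cancel_left (hH w hw ξ)).1 h3
  intro g
  exact key n le_rfl g (fun j hj => absurd j.2 (by omega))

lemma UG_inv_mulVec (g : UG n) (w : Fin n → ℂ) : g.1.1 *ᵥ ((g⁻¹ : UG n).1.1 *ᵥ w) = w := by
  rw [mulVec_mulVec]
  have : g.1.1 * (g⁻¹ : UG n).1.1 = 1 := by
    change (g.1 * (g.1)⁻¹).1 = 1
    rw [mul_inv_cancel]; rfl
  rw [this, one_mulVec]

/-- The subgroup of elements of the unitary group for which an isometric intertwiner exists. -/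
def goodSubgroup (n : ℕ) (ε : ℝ) (ψ : AddChar ℝ Circle) : Subgroup (UG n) where
  carrier := {g | ∃ T, Intertw (fun _ => ε) ψ (fun w => g.1.1 *ᵥ w) T}
  mul_mem' := by
    rintro g h ⟨T, hT⟩ ⟨T', hT'⟩
    refine ⟨T'.trans T, ?_⟩
    have := hT.mul hT'
    have h2 : (fun w => (g * h).1.1 *ᵥ w) = (fun w => g.1.1 *ᵥ w) ∘ (fun w => h.1.1 *ᵥ w) := by
      funext w
      simp [mulVec_mulVec]
    rw [h2]
    exact this
  one_mem' := ⟨LinearEquiv.refl ℂ _, by
    have := Intertw.one (n := n) (fun _ => ε) ψ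
    have h2 : (fun w => (1 : UG n).1.1 *ᵥ w) = id := by
      funext w
      simp
    rw [h2]
    exact this⟩
  inv_mem' := by
    rintro g ⟨T, hT⟩
    exact ⟨T.symm, hT.inv (fun w => UG_inv_mulVec g w)⟩

lemma R_single_mulVec (j : Fin n) (ζ : Circle) (w : Fin n → ℂ) :
    (R (Pi.single j 1) (single_unit j) ζ).1.1 *ᵥ w = Function.update w j (ζ * w j) := by
  rw [R_val]
  unfold Rm
  rw [add_mulVec, one_mulVec, smul_mulVec, vecMulVec_mulVec]
  funext i
  by_cases h : i = j
  · subst h
    simp
    ring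
  · simp [h]

lemma R_single_mem (ε b : ℝ) (hε : ε ≠ 0) (hb0 : b ≠ 0) (ψ : AddChar ℝ Circle)
    (hb : ∀ t : ℝ, ((ψ t : Circle) : ℂ) = Complex.exp (((b * t : ℝ) : ℂ) * Complex.I))
    (j : Fin n) (ζ : Circle) : R (Pi.single j 1) (single_unit j) ζ ∈ goodSubgroup n ε ψ := by
  have h1 : ∀ θ : ℝ, Real.cos (θ / 2) ≠ 0 →
      R (Pi.single j 1) (single_unit j) (Circle.exp θ) ∈ goodSubgroup n ε ψ := by
    intro θ hθ
    have hY := intertw_shearY ε b ψ hb j (Real.tan (θ / 2))
    have hX := intertw_shearX ε b hε hb0 ψ hb j (-Real.sin θ)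
    refine ⟨(((chirpEquiv j (-(b * ε * Real.tan (θ / 2)))).trans
        (fchirpEquiv j (π ^ 2 * (-Real.sin θ) / (b * ε)))).trans
          (chirpEquiv j (-(b * ε * Real.tan (θ / 2))))), ?_⟩
    · have h2 := hY.mul (hX.mul hY)
      have h3 : (fun w => (R (Pi.single j 1) (single_unit j) (Circle.exp θ)).1.1 *ᵥ w) =
          shearY j (Real.tan (θ / 2)) ∘ (shearX j (-Real.sin θ) ∘ shearY j (Real.tan (θ / 2))) := by
        funext w
        rw [R_single_mulVec]
        simp only [Function.comp]
        rw [rot_eq j θ hθ w, Circle.coe_exp]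
      rw [h3]
      exact h2
  by_cases hζ : ζ = Circle.exp π
  · have h2 : ζ = Circle.exp (π / 2) * Circle.exp (π / 2) := by
      rw [hζ, ← Circle.exp_add]; congr 1; ring
    have h4 : Real.cos (π / 2 / 2) ≠ 0 := by
      have : π / 2 / 2 = π / 4 := by ring
      rw [this, Real.cos_pi_div_four]
      positivity
    rw [h2, ← Arch.R_mul]
    exact Subgroup.mul_mem _ (h1 _ h4) (h1 _ h4)
  · have h5 : ζ = Circle.exp (Complex.arg ζ) := (Circle.exp_arg ζ).symm
    have h6 : Complex.arg ζ ≠ π := by
      intro h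
      apply hζ
      rw [h5, h]
    rw [h5]
    apply h1
    have h7 := Complex.neg_pi_lt_arg (ζ : ℂ)
    have h8 : Complex.arg (ζ : ℂ) < π := lt_of_le_of_ne (Complex.arg_le_pi _) h6
    exact (Real.cos_pos_of_mem_Ioo ⟨by linarith, by linarith⟩).ne'

/-- diagonal unitary matrices are good -/
lemma diag_mem (ε b : ℝ) (hε : ε ≠ 0) (hb0 : b ≠ 0) (ψ : AddChar ℝ Circle)
    (hb : ∀ t : ℝ, ((ψ t : Circle) : ℂ) = Complex.exp (((b * t : ℝ) : ℂ) * Complex.I))
    (z : Fin n → Circle) : ∃ t ∈ goodSubgroup n ε ψ, ∀ v : Fin n → ℂ,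
      t.1.1 *ᵥ v = fun j => (z j : ℂ) * v j := by
  have key : ∀ s : Finset (Fin n), ∃ t ∈ goodSubgroup n ε ψ, ∀ v : Fin n → ℂ,
      t.1.1 *ᵥ v = fun j => if j ∈ s then (z j : ℂ) * v j else v j := by
    intro s
    induction s using Finset.induction_on with
    | empty =>
      refine ⟨1, Subgroup.one_mem _, fun v => ?_⟩
      simp
    | insert a s ha ih =>
      obtain ⟨t, ht, ht'⟩ := ih
      refine ⟨R (Pi.single a 1) (single_unit a) (z a) * t, Subgroup.mul_mem _
        (R_single_mem ε b hε hb0 ψ hb a (z a)) ht, fun v => ?_⟩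
      simp only [Subgroup.coe_mul, Units.val_mul, ← mulVec_mulVec]
      rw [R_single_mulVec, ht']
      funext j
      by_cases h : j = a
      · subst h
        simp [ha]
      · simp [h]
  obtain ⟨t, ht, ht'⟩ := key Finset.univ
  refine ⟨t, ht, fun v => ?_⟩
  rw [ht']
  simp

end Pool.Agent.Helper35.TwistedGGP
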