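import Mathlib
import Pool.Agent.Helper35.TwistedGGPExist2

set_option autoImplicit false

open scoped SchwartzMap ComplexConjugate FourierTransform RealInnerProductSpace ComplexOrder
open MeasureTheory Matrix Real

noncomputable section

namespace Pool.Agent.Helper35.TwistedGGP

open Pool.Agent.Helper35.Arch

variable {n : ℕ}

/-- the imaginary part -/
def imVec (w : Fin n → ℂ) : EuclideanSpace ℝ (Fin n) := WithLp.toLp 2 fun j => (w j).im

lemma phase_const (ε : ℝ) (w : Fin n → ℂ) (u : EuclideanSpace ℝ (Fin n)) :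
    phase (fun _ => ε) w u = ε * (2 * ⟪imVec w, u⟫ + ⟪reVec w, imVec w⟫) := by
  simp only [phase, PiLp.inner_apply, RCLike.inner_apply, conj_trivial, reVec, imVec, Finset.mul_sum,
    ← Finset.sum_add_distrib]
  apply Finset.sum_congr rfl
  intro j _
  ring

lemma intertw_isometry (ε b : ℝ) (ψ : AddChar ℝ Circle)
    (hb : ∀ t : ℝ, ((ψ t : Circle) : ℂ) = Complex.exp (((b * t : ℝ) : ℂ) * Complex.I))
    (O : EuclideanSpace ℝ (Fin n) ≃ₗᵢ[ℝ] EuclideanSpace ℝ (Fin n)) (hO : ∀ u, O (O u) = u)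
    (S : (Fin n → ℂ) → (Fin n → ℂ)) (hre : ∀ w, reVec (S w) = O (reVec w))
    (him : ∀ w, imVec (S w) = O (imVec w)) :
    ∃ T, Intertw (fun _ : Fin n => ε) ψ S T := by
  refine ⟨⟨(SchwartzMap.compCLMOfContinuousLinearEquiv ℂ O.toContinuousLinearEquiv).toLinearMap,
    (SchwartzMap.compCLMOfContinuousLinearEquiv ℂ O.toContinuousLinearEquiv), ?_, ?_⟩, ?_, ?_⟩
  · intro f
    ext u
    simp [hO]
  · intro f
    ext u
    simp [hO]
  · intro f h
    change ∫ u, f (O u) * conj (h (O u)) = _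
    exact O.measurePreserving.integral_comp' (f := O.toHomeomorph.toMeasurableEquiv)
      (fun u => f u * conj (h u))
  · intro w f
    ext u
    change (hs (fun _ => ε) ψ w f) (O u) = _
    rw [hs_apply _ _ b hb, hs_apply _ _ b hb, hre]
    change _ = _ * f (O (u + O (reVec w)))
    have h0 : O (u + O (reVec w)) = O u + reVec w := by rw [O.map_add, hO]
    have h1 : ⟪O (reVec w), O (imVec w)⟫ = ⟪reVec w, imVec w⟫ := O.inner_map_map _ _
    have h2 : ⟪O (imVec w), u⟫ = ⟪imVec w, O u⟫ := by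
      conv_lhs => rw [← hO u]
      exact O.inner_map_map _ _
    have h3 : phase (fun _ => ε) w (O u) = phase (fun _ => ε) (S w) u := by
      rw [phase_const, phase_const, hre, him, h1, h2]
    rw [h0, h3]

/-- Complexification of a real vector. -/
def cvec (v : EuclideanSpace ℝ (Fin n)) : Fin n → ℂ := fun j => (v j : ℂ)

lemma cvec_unit (v : EuclideanSpace ℝ (Fin n)) (hv : ‖v‖ = 1) : star (cvec v) ⬝ᵥ cvec v = 1 := by
  have h1 : ∑ j, (v j) ^ 2 = 1 := by
    have := EuclideanSpace.norm_sq_eq v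
    rw [hv] at this
    simpa using this.symm
  simp only [dotProduct, cvec, Pi.star_apply, RCLike.star_def, Complex.conj_ofReal]
  rw [← Complex.ofReal_one, ← h1]
  push_cast
  apply Finset.sum_congr rfl
  intro j _
  ring

lemma real_reflection_mem (ε b : ℝ) (ψ : AddChar ℝ Circle)
    (hb : ∀ t : ℝ, ((ψ t : Circle) : ℂ) = Complex.exp (((b * t : ℝ) : ℂ) * Complex.I))
    (v : EuclideanSpace ℝ (Fin n)) (hv : ‖v‖ = 1) :
    R (cvec v) (cvec_unit v hv) (Circle.exp π) ∈ goodSubgroup n ε ψ := by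
  set O : EuclideanSpace ℝ (Fin n) ≃ₗᵢ[ℝ] EuclideanSpace ℝ (Fin n) := (ℝ ∙ v)ᗮ.reflection with hOdef
  have hO : ∀ u, O (O u) = u := fun u => Submodule.reflection_reflection _ _
  have hOf : ∀ u, O u = u - (2 * ⟪v, u⟫) • v := by
    intro u
    rw [hOdef, Submodule.reflection_orthogonal_apply, Submodule.reflection_singleton_apply, hv]
    simp only [RCLike.ofReal_real_eq_id, id_eq, one_pow, div_one, neg_sub]
    rw [two_smul, mul_smul, two_smul]
  have hS : ∀ (w : Fin n → ℂ) (j : Fin n), ((R (cvec v) (cvec_unit v hv) (Circle.exp π)).1.1 *ᵥ w) j =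
      w j - 2 * (star (cvec v) ⬝ᵥ w) * v j := by
    intro w j
    rw [R_val]
    unfold Rm
    rw [add_mulVec, one_mulVec, smul_mulVec, vecMulVec_mulVec]
    have h1 : ((Circle.exp π : Circle) : ℂ) = -1 := by
      rw [Circle.coe_exp, Complex.exp_pi_mul_I]
    rw [h1]
    simp [cvec]
    ring
  have hdot : ∀ w : Fin n → ℂ, star (cvec v) ⬝ᵥ w = ((⟪v, reVec w⟫ : ℝ) : ℂ) +
      ((⟪v, imVec w⟫ : ℝ) : ℂ) * Complex.I := by
    intro w
    simp only [dotProduct, cvec, Pi.star_apply, RCLike.star_def, Complex.conj_ofReal,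
      PiLp.inner_apply, RCLike.inner_apply, conj_trivial, reVec, imVec]
    push_cast
    rw [Finset.sum_mul, ← Finset.sum_add_distrib]
    apply Finset.sum_congr rfl
    intro j _
    conv_lhs => rw [← Complex.re_add_im (w j)]
    ring
  apply intertw_isometry ε b ψ hb O hO
  · intro w
    rw [hOf]
    ext j
    simp only [reVec, PiLp.sub_apply, PiLp.smul_apply, smul_eq_mul]
    rw [hS, hdot]
    simp [reVec]
  · intro w
    rw [hOf]
    ext j
    simp only [imVec, PiLp.sub_apply, PiLp.smul_apply, smul_eq_mul]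
    rw [hS, hdot]
    simp [imVec]


lemma R_cvec_mulVec (v : EuclideanSpace ℝ (Fin n)) (hv : ‖v‖ = 1) (u : EuclideanSpace ℝ (Fin n)) :
    (R (cvec v) (cvec_unit v hv) (Circle.exp π)).1.1 *ᵥ (cvec u) = cvec (u - (2 * ⟪v, u⟫) • v) := by
  funext j
  rw [R_val]
  unfold Rm
  rw [add_mulVec, one_mulVec, smul_mulVec, vecMulVec_mulVec]
  have h1 : ((Circle.exp π : Circle) : ℂ) = -1 := by
    rw [Circle.coe_exp, Complex.exp_pi_mul_I]
  have h2 : star (cvec v) ⬝ᵥ cvec u = ((⟪v, u⟫ : ℝ) : ℂ) := by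
    simp only [dotProduct, cvec, Pi.star_apply, RCLike.star_def, Complex.conj_ofReal,
      PiLp.inner_apply, RCLike.inner_apply, conj_trivial]
    push_cast
    apply Finset.sum_congr rfl
    intro j _
    ring
  rw [h1, h2]
  simp [cvec]
  ring

lemma exists_good_real (hn : 0 < n) (ε b : ℝ) (ψ : AddChar ℝ Circle)
    (hb : ∀ t : ℝ, ((ψ t : Circle) : ℂ) = Complex.exp (((b * t : ℝ) : ℂ) * Complex.I))
    (v : EuclideanSpace ℝ (Fin n)) (hv : ‖v‖ = 1) :
    ∃ h ∈ goodSubgroup n ε ψ, h.1.1 *ᵥ (Pi.single (⟨0, hn⟩ : Fin n) 1) = cvec v := by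
  set e0 : EuclideanSpace ℝ (Fin n) := EuclideanSpace.single (⟨0, hn⟩ : Fin n) 1 with he0
  have he0n : ‖e0‖ = 1 := by rw [he0]; simp
  have hce0 : cvec e0 = Pi.single (⟨0, hn⟩ : Fin n) (1 : ℂ) := by
    funext j
    simp only [cvec, he0]
    by_cases h : j = ⟨0, hn⟩
    · subst h; simp
    · simp [h]
  by_cases hve : e0 = v
  · refine ⟨1, Subgroup.one_mem _, ?_⟩
    rw [← hve, hce0]
    exact one_mulVec _
  · have hne : e0 - v ≠ 0 := sub_ne_zero.mpr hve
    have hpos : 0 < ‖e0 - v‖ := norm_pos_iff.mpr hne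
    set d : EuclideanSpace ℝ (Fin n) := (‖e0 - v‖⁻¹) • (e0 - v) with hd
    have hdn : ‖d‖ = 1 := by
      rw [hd, norm_smul, norm_inv, norm_norm]
      exact inv_mul_cancel₀ hpos.ne'
    refine ⟨_, real_reflection_mem ε b ψ hb d hdn, ?_⟩
    rw [← hce0, R_cvec_mulVec d hdn]
    congr 1
    have h1 : ‖e0 - v‖ ^ 2 = 2 * ⟪e0 - v, e0⟫ := by
      rw [norm_sub_sq_real, he0n, hv, inner_sub_left, real_inner_self_eq_norm_sq, he0n,
        real_inner_comm v e0]
      ring
    have h2 : (2 * ⟪d, e0⟫) • d = e0 - v := by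
      rw [hd, inner_smul_left, smul_smul]
      simp only [conj_trivial]
      have : 2 * (‖e0 - v‖⁻¹ * ⟪e0 - v, e0⟫) * ‖e0 - v‖⁻¹ = 1 := by
        have h3 : 2 * (‖e0 - v‖⁻¹ * ⟪e0 - v, e0⟫) * ‖e0 - v‖⁻¹ = (2 * ⟪e0 - v, e0⟫) / ‖e0 - v‖ ^ 2 := by
          field_simp
        rw [h3, ← h1]
        exact div_self (pow_ne_zero _ hpos.ne')
      rw [this, one_smul]
    rw [h2]
    abel

lemma goodSubgroup_eq_top (ε b : ℝ) (hε : ε ≠ 0) (hb0 : b ≠ 0) (ψ : AddChar ℝ Circle)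
    (hb : ∀ t : ℝ, ((ψ t : Circle) : ℂ) = Complex.exp (((b * t : ℝ) : ℂ) * Complex.I)) :
    goodSubgroup n ε ψ = ⊤ := by
  apply subgroup_eq_top
  intro w hw ζ
  have hn : 0 < n := by
    rcases Nat.eq_zero_or_pos n with h | h
    · subst h
      simp at hw
    · exact h
  set v : EuclideanSpace ℝ (Fin n) := WithLp.toLp 2 (fun j => ‖w j‖) with hv
  have hvn : ‖v‖ = 1 := by
    have h1 : ((∑ j, ‖w j‖ ^ 2 : ℝ) : ℂ) = 1 := by
      rw [← hw]
      simp only [dotProduct, Pi.star_apply, RCLike.star_def]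
      push_cast
      apply Finset.sum_congr rfl
      intro j _
      rw [Complex.conj_mul']
    have h2 : ∑ j, ‖w j‖ ^ 2 = 1 := by exact_mod_cast h1
    rw [EuclideanSpace.norm_eq]
    simp only [hv, norm_norm, h2, Real.sqrt_one]
  obtain ⟨h, hh, hh'⟩ := exists_good_real hn ε b ψ hb v hvn
  have hz : ∀ j, ∃ z : Circle, w j = (z : ℂ) * (v j : ℂ) := by
    intro j
    by_cases hj : w j = 0
    · exact ⟨1, by simp [hv, hj]⟩
    · refine ⟨⟨w j / ‖w j‖, mem_sphere_zero_iff_norm.mpr ?_⟩, ?_⟩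
      · rw [norm_div]
        simp [hj]
      · change w j = (w j / ‖w j‖) * (‖w j‖ : ℂ)
        have : ((‖w j‖ : ℝ) : ℂ) ≠ 0 := by exact_mod_cast norm_ne_zero_iff.mpr hj
        field_simp
  choose z hz' using hz
  obtain ⟨t, ht, ht'⟩ := diag_mem ε b hε hb0 ψ hb z
  have h3 : (t * h).1.1 *ᵥ (Pi.single (⟨0, hn⟩ : Fin n) 1) = w := by
    simp only [Subgroup.coe_mul, Units.val_mul, ← mulVec_mulVec]
    rw [hh', ht']
    funext j
    exact (hz' j).symm
  have h4 := conj_R (t * h) (Pi.single (⟨0, hn⟩ : Fin n) 1) (single_unit _) ζ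
  have h5 : R ((t * h).1.1 *ᵥ (Pi.single (⟨0, hn⟩ : Fin n) 1)) (unit_mulVec (t * h) _ (single_unit _)) ζ
      = R w hw ζ := by
    apply UG_ext
    simp only [R_val]
    rw [h3]
  rw [h5] at h4
  rw [← h4]
  exact Subgroup.mul_mem _ (Subgroup.mul_mem _ (Subgroup.mul_mem _ ht hh)
    (R_single_mem ε b hε hb0 ψ hb _ ζ)) (Subgroup.inv_mem _ (Subgroup.mul_mem _ ht hh))

end Pool.Agent.Helper35.TwistedGGP
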