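import Mathlib
import Pool.Agent.Helper35.TwistedGGPExist3

set_option autoImplicit false

open scoped SchwartzMap ComplexConjugate FourierTransform RealInnerProductSpace ComplexOrder
open MeasureTheory Matrix Real

noncomputable section

namespace Pool.Agent.Helper35.TwistedGGP

open Pool.Agent.Helper35.Arch

variable {n : ℕ}

section single

variable (ε b : ℝ) (hε : ε ≠ 0) (hb0 : b ≠ 0) (ψ : AddChar ℝ Circle)
    (hb : ∀ t : ℝ, ((ψ t : Circle) : ℂ) = Complex.exp (((b * t : ℝ) : ℂ) * Complex.I))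
    (f0 : 𝓢(EuclideanSpace ℝ (Fin n), ℂ))
    (hf0 : ∀ u, f0 u = ((Real.exp (-(|b * ε| * ‖u‖ ^ 2)) : ℝ) : ℂ))

include hε hb0 hb hf0

lemma gauss_fixed (g : UG n) (T : 𝓢(EuclideanSpace ℝ (Fin n), ℂ) ≃ₗ[ℂ] 𝓢(EuclideanSpace ℝ (Fin n), ℂ))
    (hT : Intertw (fun _ => ε) ψ (fun w => g.1.1 *ᵥ w) T) :
    ‖T f0 0‖ = 1 ∧ T f0 = (T f0 0) • f0 := by
  have hcoef : ∀ w, ∫ u, heis (fun _ => ε) ψ w (T f0) u * conj ((T f0) u) =
      ∫ u, heis (fun _ => ε) ψ w f0 u * conj (f0 u) := by
    intro w
    set w' : Fin n → ℂ := (g⁻¹ : UG n).1.1 *ᵥ w with hw'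
    have h1 : heis (fun _ => ε) ψ w (T f0) = T (hs (fun _ => ε) ψ w' f0) := by
      funext u
      rw [hT.comm, hs_apply' _ _ b hb]
      congr 1
      rw [hw']
      exact (UG_inv_mulVec g w).symm
    have h3 : ∀ w'', ∫ u, heis (fun _ => ε) ψ w'' f0 u * conj (f0 u) =
      (π / (2 * |b * ε| : ℝ)) ^ ((n : ℂ) / 2) *
        Complex.exp (-(((|b * ε| / 2 * ∑ j, ‖w'' j‖ ^ 2 : ℝ) : ℂ))) :=
      fun w'' => coef_gauss ε b hε hb0 ψ hb f0 hf0 w''
    rw [h1, hT.iso]
    have h4 : ∫ u, (hs (fun _ => ε) ψ w' f0) u * conj (f0 u) =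
        ∫ u, heis (fun _ => ε) ψ w' f0 u * conj (f0 u) := by
      congr 1
      funext u
      rw [hs_apply' _ _ b hb]
    rw [h4, h3, h3]
    have h2 : ∑ j, ‖w' j‖ ^ 2 = ∑ j, ‖w j‖ ^ 2 := sum_norm_sq_mulVec (g⁻¹) w
    rw [h2]
  have hprod := eq_of_coef ε b hε hb0 ψ hb (T f0) f0 hcoef
  have hf00 : f0 0 = 1 := by rw [hf0]; simp
  have h0 : (T f0) 0 * conj ((T f0) 0) = 1 := by
    have := hprod 0 0
    rw [add_zero, hf00] at this
    simpa using this
  refine ⟨?_, ?_⟩
  · have h1 : ‖(T f0) 0‖ * ‖(T f0) 0‖ = 1 := by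
      have := congrArg norm h0
      rwa [norm_mul, RCLike.norm_conj, norm_one] at this
    nlinarith [norm_nonneg ((T f0) 0)]
  · ext x
    have h1 := hprod x 0
    rw [zero_add, hf00, map_one, mul_one] at h1
    have : (T f0) x = (T f0) x * (conj ((T f0) 0) * (T f0) 0) := by
      rw [mul_comm (conj ((T f0) 0)), h0, mul_one]
    rw [this, ← mul_assoc, h1]
    simp [mul_comm]

lemma exists_normalized (g : UG n) :
    ∃ T, Intertw (fun _ => ε) ψ (fun w => g.1.1 *ᵥ w) T ∧ T f0 = f0 := by
  have hg : g ∈ goodSubgroup n ε ψ := by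
    rw [goodSubgroup_eq_top ε b hε hb0 ψ hb]
    trivial
  obtain ⟨T, hT⟩ := hg
  obtain ⟨h1, h2⟩ := gauss_fixed ε b hε hb0 ψ hb f0 hf0 g T hT
  set c : ℂ := T f0 0 with hc
  have hc0 : c ≠ 0 := by
    intro h
    rw [h, norm_zero] at h1
    exact zero_ne_one h1
  have hcc : c⁻¹ * conj c⁻¹ = 1 := by
    rw [Complex.mul_conj, Complex.normSq_eq_norm_sq, norm_inv, h1]
    simp
  refine ⟨T.trans (LinearEquiv.smulOfNeZero ℂ _ c⁻¹ (inv_ne_zero hc0)), ⟨?_, ?_⟩, ?_⟩
  · intro f h
    rw [← hT.iso f h]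
    congr 1
    funext u
    change (c⁻¹ • T f) u * conj ((c⁻¹ • T h) u) = _
    simp only [_root_.smul_apply, smul_eq_mul, map_mul]
    linear_combination (T f u * conj (T h u)) * hcc
  · intro w f
    change c⁻¹ • T (hs (fun _ => ε) ψ w f) = hs (fun _ => ε) ψ (g.1.1 *ᵥ w) (c⁻¹ • T f)
    rw [map_smul, hT.comm]
  · change c⁻¹ • T f0 = f0
    rw [h2, smul_smul, inv_mul_cancel₀ hc0, one_smul]

/-- If `φ` is orthogonal to all coherent states then `φ = 0`. -/
lemma eq_zero_of_orth (φ : 𝓢(EuclideanSpace ℝ (Fin n), ℂ))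
    (h : ∀ w, ∫ u, φ u * conj (hs (fun _ => ε) ψ w f0 u) = 0) : φ = 0 := by
  -- the product `φ f0`
  set G : 𝓢(EuclideanSpace ℝ (Fin n), ℂ) := SchwartzMap.pairing (ContinuousLinearMap.mul ℂ ℂ) φ f0 with hG
  have hGa : ∀ u, G u = φ u * f0 u := fun u => rfl
  have h1 : 𝓕 G = 0 := by
    ext ξ
    rw [SchwartzMap.fourier_coe, Real.fourier_eq']
    set w : Fin n → ℂ := fun j => ((π * ξ j / (b * ε) : ℝ) : ℂ) * Complex.I with hw
    have h2 := h w
    have hre : reVec w = 0 := by
      ext j
      simp only [reVec, hw]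
      rw [Complex.re_ofReal_mul]
      simp
    have h3 : (fun u => φ u * conj (hs (fun _ => ε) ψ w f0 u)) =
        fun v => Complex.exp (((-2 * π * ⟪v, ξ⟫ : ℝ) : ℂ) * Complex.I) • G v := by
      funext u
      rw [hs_apply _ _ b hb, hre, add_zero, hGa, hb, hf0, map_mul, Complex.conj_ofReal,
        ← Complex.exp_conj, map_mul, Complex.conj_ofReal, Complex.conj_I]
      have h4 : b * phase (fun _ => ε) w u = 2 * π * ⟪u, ξ⟫ := by
        rw [phase_const, hre, inner_zero_left, add_zero]
        have h5 : imVec w = (π / (b * ε)) • ξ := by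
          ext j
          simp only [imVec, hw]
          rw [Complex.im_ofReal_mul]
          simp
          ring
        rw [h5, inner_smul_left, real_inner_comm u ξ]
        simp only [conj_trivial]
        field_simp
      rw [h4, smul_eq_mul]
      have h6 : ((2 * π * ⟪u, ξ⟫ : ℝ) : ℂ) * -Complex.I = ((-2 * π * ⟪u, ξ⟫ : ℝ) : ℂ) * Complex.I := by
        push_cast; ring
      rw [h6]
      ring
    rw [h3] at h2
    exact h2
  have h2 : G = 0 := by
    have := congrArg (fun g => 𝓕⁻ g) h1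
    simpa using this
  ext u
  have h3 : G u = 0 := by rw [h2]; rfl
  rw [hGa, hf0] at h3
  rcases mul_eq_zero.1 h3 with h4 | h4
  · exact h4
  · exfalso
    have : Real.exp (-(|b * ε| * ‖u‖ ^ 2)) = 0 := by exact_mod_cast h4
    exact (Real.exp_pos _).ne' this

omit hε hb0 hf0 in
lemma hs_zero (f : 𝓢(EuclideanSpace ℝ (Fin n), ℂ)) : hs (fun _ => ε) ψ 0 f = f := by
  ext u
  have h20 : reVec (0 : Fin n → ℂ) = 0 := by
    ext j
    simp [reVec]
  rw [hs_apply _ _ b hb, h20]
  simp [phase]

lemma intertw_unique (g : UG n)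
    (T T' : 𝓢(EuclideanSpace ℝ (Fin n), ℂ) ≃ₗ[ℂ] 𝓢(EuclideanSpace ℝ (Fin n), ℂ))
    (hT : Intertw (fun _ => ε) ψ (fun w => g.1.1 *ᵥ w) T)
    (hT' : Intertw (fun _ => ε) ψ (fun w => g.1.1 *ᵥ w) T')
    (h1 : T f0 = f0) (h1' : T' f0 = f0) : T = T' := by
  ext1 f
  rw [← sub_eq_zero]
  apply eq_zero_of_orth ε b hε hb0 ψ hb f0 hf0
  intro w
  set w' : Fin n → ℂ := (g⁻¹ : UG n).1.1 *ᵥ w with hw'
  have h2 : ∀ (S : 𝓢(EuclideanSpace ℝ (Fin n), ℂ) ≃ₗ[ℂ] 𝓢(EuclideanSpace ℝ (Fin n), ℂ)),
      Intertw (fun _ => ε) ψ (fun w => g.1.1 *ᵥ w) S → S f0 = f0 →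
      hs (fun _ => ε) ψ w f0 = S (hs (fun _ => ε) ψ w' f0) := by
    intro S hS hSf
    rw [hS.comm, hSf, hw']
    rw [UG_inv_mulVec g w]
  have h3 : ∀ (S : 𝓢(EuclideanSpace ℝ (Fin n), ℂ) ≃ₗ[ℂ] 𝓢(EuclideanSpace ℝ (Fin n), ℂ)),
      Intertw (fun _ => ε) ψ (fun w => g.1.1 *ᵥ w) S → S f0 = f0 →
      ∫ u, S f u * conj (hs (fun _ => ε) ψ w f0 u) = ∫ u, f u * conj (hs (fun _ => ε) ψ w' f0 u) := by
    intro S hS hSf
    rw [h2 S hS hSf, hS.iso]
  have hint : ∀ φ : 𝓢(EuclideanSpace ℝ (Fin n), ℂ),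
      Integrable (fun u => φ u * conj (hs (fun _ => ε) ψ w f0 u)) := by
    intro φ
    have h4 : (fun u => φ u * conj (hs (fun _ => ε) ψ w f0 u)) =
      (SchwartzMap.pairing (ContinuousLinearMap.mul ℂ ℂ) φ (conjS (hs (fun _ => ε) ψ w f0))) := by
      funext u
      rfl
    rw [h4]
    exact SchwartzMap.integrable _
  have h5 : (fun u => (T f - T' f) u * conj (hs (fun _ => ε) ψ w f0 u)) =
      fun u => T f u * conj (hs (fun _ => ε) ψ w f0 u) - T' f u * conj (hs (fun _ => ε) ψ w f0 u) := by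
    funext u
    rw [_root_.sub_apply]
    ring
  rw [h5, integral_sub (hint _) (hint _), h3 T hT h1, h3 T' hT' h1', sub_self]


/-- The linear span of the coherent states. -/
def cohSpan (ψ : AddChar ℝ Circle) (ε : ℝ) (f0 : 𝓢(EuclideanSpace ℝ (Fin n), ℂ)) :
    Submodule ℂ 𝓢(EuclideanSpace ℝ (Fin n), ℂ) :=
  Submodule.span ℂ (Set.range fun w => hs (fun _ => ε) ψ w f0)

omit hε hb0 hb hf0 in
lemma toL2_inner (f h : 𝓢(EuclideanSpace ℝ (Fin n), ℂ)) :
    inner ℂ (h.toLp 2) (f.toLp 2) = ∫ u, f u * conj (h u) := by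
  have h1 := SchwartzMap.inner_toL2_toL2_eq h f (volume : Measure (EuclideanSpace ℝ (Fin n)))
  rw [h1]
  simp only [RCLike.inner_apply]

/-- The coherent states span a dense subspace of `L²`. -/
lemma coh_dense (f : 𝓢(EuclideanSpace ℝ (Fin n), ℂ)) (η : ℝ) (hη : 0 < η) :
    ∃ f' ∈ cohSpan ψ ε f0, ‖(f - f').toLp 2 (volume : Measure (EuclideanSpace ℝ (Fin n)))‖ < η := by
  set L := SchwartzMap.toLpCLM ℂ ℂ 2 (volume : Measure (EuclideanSpace ℝ (Fin n))) with hL
  set D := (cohSpan ψ ε f0).map L.toLinearMap with hD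
  have horth : Dᗮ = ⊥ := by
    rw [Submodule.eq_bot_iff]
    intro F hF
    rw [Submodule.mem_orthogonal] at hF
    -- the product `F f0`
    have hFint : Integrable (fun u => (F : EuclideanSpace ℝ (Fin n) → ℂ) u * f0 u) := by
      have h1 : MemLp (F : EuclideanSpace ℝ (Fin n) → ℂ) 2 volume := Lp.memLp F
      have h2 : MemLp (f0 : EuclideanSpace ℝ (Fin n) → ℂ) 2 volume := f0.memLp 2
      exact MemLp.integrable_mul h1 h2
    have hFT : ∀ ξ : EuclideanSpace ℝ (Fin n),
        𝓕 (fun u => (F : EuclideanSpace ℝ (Fin n) → ℂ) u * f0 u) ξ = 0 := by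
      intro ξ
      rw [Real.fourier_eq']
      set w : Fin n → ℂ := fun j => ((π * ξ j / (b * ε) : ℝ) : ℂ) * Complex.I with hw
      have h2 := hF (L (hs (fun _ => ε) ψ w f0)) (Submodule.mem_map_of_mem
        (Submodule.subset_span ⟨w, rfl⟩))
      have hre : reVec w = 0 := by
        ext j
        simp only [reVec, hw]
        rw [Complex.re_ofReal_mul]
        simp
      rw [L2.inner_def] at h2
      rw [← h2]
      apply integral_congr_ae
      have h3 := (hs (fun _ => ε) ψ w f0).coeFn_toLp 2 (volume : Measure (EuclideanSpace ℝ (Fin n)))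
      filter_upwards [h3] with u hu
      have hu' : (L (hs (fun _ => ε) ψ w f0) : EuclideanSpace ℝ (Fin n) → ℂ) u =
        hs (fun _ => ε) ψ w f0 u := hu
      rw [hu']
      simp only [RCLike.inner_apply]
      rw [hs_apply _ _ b hb, hre, add_zero, hb, hf0, map_mul, Complex.conj_ofReal,
        ← Complex.exp_conj, map_mul, Complex.conj_ofReal, Complex.conj_I]
      have h4 : b * phase (fun _ => ε) w u = 2 * π * ⟪u, ξ⟫ := by
        rw [phase_const, hre, inner_zero_left, add_zero]
        have h5 : imVec w = (π / (b * ε)) • ξ := by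
          ext j
          simp only [imVec, hw]
          rw [Complex.im_ofReal_mul]
          simp
          ring
        rw [h5, inner_smul_left, real_inner_comm u ξ]
        simp only [conj_trivial]
        field_simp
      rw [h4, smul_eq_mul]
      have h6 : ((2 * π * ⟪u, ξ⟫ : ℝ) : ℂ) * -Complex.I = ((-2 * π * ⟪u, ξ⟫ : ℝ) : ℂ) * Complex.I := by
        push_cast; ring
      rw [h6]
      ring
    have hzero : ∀ᵐ u ∂(volume : Measure (EuclideanSpace ℝ (Fin n))),
        (F : EuclideanSpace ℝ (Fin n) → ℂ) u * f0 u = 0 := by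
      apply ae_eq_zero_of_integral_contDiff_smul_eq_zero hFint.locallyIntegrable
      intro g hg hgc
      -- `g` as a Schwartz function
      set gc : 𝓢(EuclideanSpace ℝ (Fin n), ℂ) :=
        SchwartzMap.postcompCLM (𝕜 := ℝ) (Complex.ofRealCLM : ℝ →L[ℝ] ℂ) (hgc.toSchwartzMap hg) with hgcdef
      have hgc' : ∀ u, gc u = (g u : ℂ) := fun u => rfl
      have h7 : 𝓕 (𝓕⁻ gc) = gc := FourierTransform.fourier_fourierInv_eq gc
      have h8 : ∫ ξ, (𝓕 (𝓕⁻ gc : 𝓢(EuclideanSpace ℝ (Fin n), ℂ)) ξ) • ((F : EuclideanSpace ℝ (Fin n) → ℂ) ξ * f0 ξ) =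
          ∫ x, (𝓕⁻ gc : 𝓢(EuclideanSpace ℝ (Fin n), ℂ)) x •
            𝓕 (fun u => (F : EuclideanSpace ℝ (Fin n) → ℂ) u * f0 u) x := by
        have hgi : Integrable (𝓕⁻ gc : 𝓢(EuclideanSpace ℝ (Fin n), ℂ))
          (volume : Measure (EuclideanSpace ℝ (Fin n))) := SchwartzMap.integrable _
        have h9 := VectorFourier.integral_fourierIntegral_smul_eq_flip
          (L := innerₗ (EuclideanSpace ℝ (Fin n)))
          continuous_fourierChar continuous_inner hgi hFint
        rw [flip_innerₗ] at h9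
        exact h9
      rw [h7] at h8
      simp only [hFT, smul_zero, integral_zero] at h8
      rw [← h8]
      congr 1
    rw [Lp.eq_zero_iff_ae_eq_zero]
    filter_upwards [hzero] with u hu
    rcases mul_eq_zero.1 hu with h4 | h4
    · exact h4
    · exfalso
      rw [hf0] at h4
      have : Real.exp (-(|b * ε| * ‖u‖ ^ 2)) = 0 := by exact_mod_cast h4
      exact (Real.exp_pos _).ne' this
  have hdense : D.topologicalClosure = ⊤ := by
    rw [Submodule.topologicalClosure_eq_top_iff]
    exact horth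
  have hmem : L f ∈ closure (D : Set (Lp ℂ 2 (volume : Measure (EuclideanSpace ℝ (Fin n))))) := by
    rw [← Submodule.topologicalClosure_coe, hdense]
    trivial
  obtain ⟨y, hy, hyd⟩ := Metric.mem_closure_iff.1 hmem η hη
  obtain ⟨f', hf', rfl⟩ := hy
  refine ⟨f', hf', ?_⟩
  have h9 : L (f - f') = L f - L f' := map_sub L f f'
  change ‖L (f - f')‖ < η
  rw [h9, ← dist_eq_norm]
  exact hyd


omit hε hb0 hf0 in
/-- Matrix coefficients of the Heisenberg representation are continuous. -/
lemma continuous_coef (f h : 𝓢(EuclideanSpace ℝ (Fin n), ℂ)) :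
    Continuous fun w : Fin n → ℂ => ∫ u, hs (fun _ => ε) ψ w f u * conj (h u) := by
  obtain ⟨C, hC⟩ : ∃ C, ∀ u, ‖f u‖ ≤ C := by
    obtain ⟨C, -, hC⟩ := f.decay 0 0
    exact ⟨C, fun u => by simpa using hC u⟩
  have hhs : ∀ w u, hs (fun _ => ε) ψ w f u * conj (h u) =
      Complex.exp (((b * phase (fun _ => ε) w u : ℝ) : ℂ) * Complex.I) * f (u + reVec w) * conj (h u) := by
    intro w u
    rw [hs_apply _ _ b hb, hb]
  have hre : Continuous (reVec : (Fin n → ℂ) → EuclideanSpace ℝ (Fin n)) := by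
    unfold reVec
    apply (PiLp.continuous_toLp 2 _).comp
    exact continuous_pi fun j => Complex.continuous_re.comp (continuous_apply j)
  apply continuous_of_dominated (bound := fun u => C * ‖h u‖)
  · intro w
    have : (fun u => hs (fun _ => ε) ψ w f u * conj (h u)) =
      (SchwartzMap.pairing (ContinuousLinearMap.mul ℂ ℂ) (hs (fun _ => ε) ψ w f) (conjS h)) := rfl
    rw [this]
    exact (SchwartzMap.continuous _).aestronglyMeasurable
  · intro w
    refine Filter.Eventually.of_forall fun u => ?_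
    rw [hhs, norm_mul, norm_mul, Complex.norm_exp_ofReal_mul_I, one_mul, RCLike.norm_conj]
    gcongr
    exact hC _
  · exact (h.integrable.norm).const_mul C
  · refine Filter.Eventually.of_forall fun u => ?_
    simp only [hhs]
    have h1 : Continuous fun w : Fin n → ℂ => phase (fun _ => ε) w u := by
      unfold phase
      apply continuous_finsetSum
      intro j _
      have h2 : Continuous fun w : Fin n → ℂ => (w j).im := Complex.continuous_im.comp (continuous_apply j)
      have h3 : Continuous fun w : Fin n → ℂ => (w j).re := Complex.continuous_re.comp (continuous_apply j)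
      fun_prop
    have h4 : Continuous fun w : Fin n → ℂ => f (u + reVec w) :=
      f.continuous.comp (continuous_const.add hre)
    have h5 : Continuous fun w : Fin n → ℂ =>
        Complex.exp (((b * phase (fun _ => ε) w u : ℝ) : ℂ) * Complex.I) := by
      apply Complex.continuous_exp.comp
      apply Continuous.mul _ continuous_const
      exact Complex.continuous_ofReal.comp (continuous_const.mul h1)
    exact (h5.mul h4).mul continuous_const

end single

/-- Existence of the Weil representation for definite spaces. -/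
theorem exists_weil (ε b : ℝ) (hε : ε ≠ 0) (hb0 : b ≠ 0) (ψ : AddChar ℝ Circle)
    (hb : ∀ t : ℝ, ((ψ t : Circle) : ℂ) = Complex.exp (((b * t : ℝ) : ℂ) * Complex.I)) :
    ∃ ω : Representation ℂ (UV fun _ : Fin n => ε) (SchwartzFn n),
      IsWeilRepresentation (fun _ => ε) ψ ω := by
  set f0 : 𝓢(EuclideanSpace ℝ (Fin n), ℂ) :=
    SchwartzMap.postcompCLM (𝕜 := ℝ) (Complex.ofRealCLM : ℝ →L[ℝ] ℂ)
      (gaussR |b * ε| (abs_pos.mpr (mul_ne_zero hb0 hε))) with hf0def
  have hf0 : ∀ u, f0 u = ((Real.exp (-(|b * ε| * ‖u‖ ^ 2)) : ℝ) : ℂ) := fun u => rfl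
  have hex := exists_normalized (n := n) ε b hε hb0 ψ hb f0 hf0
  choose T hT hTf using hex
  have hone : T 1 = LinearEquiv.refl ℂ _ := by
    apply intertw_unique ε b hε hb0 ψ hb f0 hf0 1 _ _ (hT 1) _ (hTf 1) rfl
    have := Intertw.one (n := n) (fun _ => ε) ψ
    have h2 : (fun w => (1 : UG n).1.1 *ᵥ w) = id := by
      funext w
      simp
    rw [h2]
    exact this
  have hmul : ∀ g h : UG n, T (g * h) = (T h).trans (T g) := by
    intro g h
    apply intertw_unique ε b hε hb0 ψ hb f0 hf0 (g * h) _ _ (hT (g * h)) _ (hTf (g * h))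
    · change T g (T h f0) = f0
      rw [hTf, hTf]
    · have := (hT g).mul (hT h)
      have h2 : (fun w => (g * h).1.1 *ᵥ w) = (fun w => g.1.1 *ᵥ w) ∘ (fun w => h.1.1 *ᵥ w) := by
        funext w
        simp [mulVec_mulVec]
      rw [h2]
      exact this
  -- identification of the groups
  let e : UV (fun _ : Fin n => ε) → UG n := fun g => ⟨g.1, (mem_UV_const hε).1 g.2⟩
  have hemul : ∀ g h, e (g * h) = e g * e h := fun g h => rfl
  have heone : e 1 = 1 := rfl
  refine ⟨{ toFun := fun g => ((T (e g)).toLinearMap : SchwartzFn n →ₗ[ℂ] SchwartzFn n)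
            map_one' := ?_
            map_mul' := ?_ }, ?_, ?_, ?_⟩
  · rw [heone, hone]
    rfl
  · intro g h
    rw [hemul, hmul]
    rfl
  · intro g f h
    exact (hT (e g)).iso f h
  · intro f h
    have hcont : Continuous e := Continuous.subtype_mk continuous_subtype_val _
    change Continuous fun g => ∫ u, (T (e g) (toSM f)) u * conj (toSM h u)
    suffices hs : Continuous fun g : UG n => ∫ u, (T g (toSM f)) u * conj (toSM h u) from hs.comp hcont
    -- continuity for coherent states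
    have hcoh : ∀ f' ∈ cohSpan ψ ε f0, Continuous fun g : UG n => ∫ u, (T g f') u * conj (toSM h u) := by
      intro f' hf'
      induction hf' using Submodule.span_induction with
      | mem x hx =>
        obtain ⟨w, rfl⟩ := hx
        have h1 : ∀ g : UG n, T g (hs (fun _ => ε) ψ w f0) = hs (fun _ => ε) ψ (g.1.1 *ᵥ w) f0 := by
          intro g
          rw [(hT g).comm, hTf]
        simp only [h1]
        have h2 : Continuous fun g : UG n => g.1.1 *ᵥ w := by
          have h3 : Continuous fun g : UG n => g.1.1 := Units.continuous_val.comp continuous_subtype_val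
          exact h3.matrix_mulVec continuous_const
        exact (continuous_coef ε b ψ hb f0 (toSM h)).comp h2
      | zero =>
        simp only [map_zero]
        have : (fun _ : UG n => ∫ u, (0 : 𝓢(EuclideanSpace ℝ (Fin n), ℂ)) u * conj (toSM h u)) = fun _ => 0 := by
          funext g
          simp
        rw [this]
        exact continuous_const
      | add x y _ _ hx hy =>
        have h1 : ∀ g : UG n, ∫ u, (T g (x + y)) u * conj (toSM h u) =
            (∫ u, (T g x) u * conj (toSM h u)) + (∫ u, (T g y) u * conj (toSM h u)) := by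
          intro g
          rw [map_add, ← integral_add]
          · congr 1
            funext u
            simp [add_mul]
          · exact (SchwartzMap.integrable (SchwartzMap.pairing (ContinuousLinearMap.mul ℂ ℂ) (T g x) (conjS (toSM h))))
          · exact (SchwartzMap.integrable (SchwartzMap.pairing (ContinuousLinearMap.mul ℂ ℂ) (T g y) (conjS (toSM h))))
        simp only [h1]
        exact hx.add hy
      | smul c x _ hx =>
        have h1 : ∀ g : UG n, ∫ u, (T g (c • x)) u * conj (toSM h u) =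
            c * ∫ u, (T g x) u * conj (toSM h u) := by
          intro g
          rw [map_smul, ← integral_const_mul]
          congr 1
          funext u
          simp [mul_assoc]
        simp only [h1]
        exact continuous_const.mul hx
    apply continuous_of_uniform_approx_of_continuous
    intro V hV
    obtain ⟨η, hη, hηV⟩ := Metric.mem_uniformity_dist.1 hV
    set M : ℝ := ‖(toSM h).toLp 2 (volume : Measure (EuclideanSpace ℝ (Fin n)))‖ + 1 with hM
    have hMpos : 0 < M := by positivity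
    obtain ⟨f', hf', hff'⟩ := coh_dense ε b hε hb0 ψ hb f0 hf0 (toSM f) (η / M) (by positivity)
    refine ⟨_, hcoh f' hf', fun g => ?_⟩
    apply hηV
    rw [dist_eq_norm]
    have h1 : (∫ u, (T g (toSM f)) u * conj (toSM h u)) - (∫ u, (T g f') u * conj (toSM h u)) =
        ∫ u, (T g (toSM f - f')) u * conj (toSM h u) := by
      rw [map_sub, ← integral_sub]
      · congr 1
        funext u
        simp [sub_mul]
      · exact (SchwartzMap.integrable (SchwartzMap.pairing (ContinuousLinearMap.mul ℂ ℂ) (T g (toSM f)) (conjS (toSM h))))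
      · exact (SchwartzMap.integrable (SchwartzMap.pairing (ContinuousLinearMap.mul ℂ ℂ) (T g f') (conjS (toSM h))))
    rw [h1, ← toL2_inner]
    have h2 : ‖(T g (toSM f - f')).toLp 2 (volume : Measure (EuclideanSpace ℝ (Fin n)))‖ =
        ‖(toSM f - f').toLp 2 (volume : Measure (EuclideanSpace ℝ (Fin n)))‖ := by
      have h3 : inner ℂ ((T g (toSM f - f')).toLp 2 (volume : Measure (EuclideanSpace ℝ (Fin n))))
          ((T g (toSM f - f')).toLp 2 (volume : Measure (EuclideanSpace ℝ (Fin n)))) =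
          inner ℂ ((toSM f - f').toLp 2 (volume : Measure (EuclideanSpace ℝ (Fin n))))
          ((toSM f - f').toLp 2 (volume : Measure (EuclideanSpace ℝ (Fin n)))) := by
        rw [toL2_inner, toL2_inner, (hT g).iso]
      rw [inner_self_eq_norm_sq_to_K, inner_self_eq_norm_sq_to_K] at h3
      have h4 : ‖(T g (toSM f - f')).toLp 2 (volume : Measure (EuclideanSpace ℝ (Fin n)))‖ ^ 2 =
        ‖(toSM f - f').toLp 2 (volume : Measure (EuclideanSpace ℝ (Fin n)))‖ ^ 2 := by exact_mod_cast h3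
      exact (sq_eq_sq₀ (norm_nonneg _) (norm_nonneg _)).1 h4
    calc ‖inner ℂ ((toSM h).toLp 2 (volume : Measure (EuclideanSpace ℝ (Fin n))))
          ((T g (toSM f - f')).toLp 2 (volume : Measure (EuclideanSpace ℝ (Fin n))))‖
        ≤ ‖(toSM h).toLp 2 (volume : Measure (EuclideanSpace ℝ (Fin n)))‖ *
          ‖(T g (toSM f - f')).toLp 2 (volume : Measure (EuclideanSpace ℝ (Fin n)))‖ := norm_inner_le_norm _ _
      _ ≤ M * ‖(toSM f - f').toLp 2 (volume : Measure (EuclideanSpace ℝ (Fin n)))‖ := by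
          rw [h2]
          gcongr
          rw [hM]; linarith
      _ < M * (η / M) := by gcongr
      _ = η := by field_simp
  · intro g w f f' hff'
    have h1 : f' = ofSM (hs (fun _ => ε) ψ w (toSM f)) := by
      apply SchwartzFn.ext
      rw [hff']
      funext u
      rw [ofSM_apply, hs_apply' _ _ b hb]
      rfl
    rw [h1]
    funext u
    change (T (e g) (hs (fun _ => ε) ψ w (toSM f))) u = _
    rw [(hT (e g)).comm, hs_apply' _ _ b hb]
    rfl

end Pool.Agent.Helper35.TwistedGGP
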