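import Pool.Agent.Helper31.YMLie

/-!
# An orthonormal basis of the Lie algebra of a compact subgroup of `U(N)`
-/

open MeasureTheory
open scoped Matrix.Norms.Frobenius ComplexConjugate

noncomputable section

namespace Pool.Agent.Helper82.YM

open Pool.Agent.LGT (tr haar)

/-- The real inner product `Re tr (A* B)`, whose norm is the Frobenius norm. -/
@[reducible]
def frobInner (N : ℕ) : InnerProductSpace ℝ (Matrix (Fin N) (Fin N) ℂ) :=
  { (inferInstance : NormedSpace ℝ (Matrix (Fin N) (Fin N) ℂ)) with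
    inner := fun A B => (Matrix.trace (star A * B)).re
    norm_sq_eq_re_inner := fun A => by
      rw [frob_sq]; rfl
    conj_inner_symm := fun A B => by
      have h : Matrix.trace (star A * B) = star (Matrix.trace (star B * A)) := by
        rw [← Matrix.trace_conjTranspose, ← Matrix.star_eq_conjTranspose, star_mul, star_star]
      show (Matrix.trace (star B * A)).re = (Matrix.trace (star A * B)).re
      rw [h]
      simp
    add_left := fun A B D => by
      show (Matrix.trace (star (A + B) * D)).re = _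
      rw [star_add, add_mul, Matrix.trace_add, Complex.add_re]
    smul_left := fun A B r => by
      show (Matrix.trace (star (r • A) * B)).re = r * (Matrix.trace (star A * B)).re
      rw [star_smul, star_trivial, smul_mul_assoc, Matrix.trace_smul, Complex.real_smul,
        Complex.re_ofReal_mul] }

/-- There are finitely many unit tangent vectors `X i` to `G` whose linear functionals
`B ↦ Re tr (X i B)` control real linear combinations of `g - 1`, `g ∈ G`, up to a quadratic
error. -/
theorem lie_basis {N : ℕ} (G : Subgroup (Matrix.unitaryGroup (Fin N) ℂ)) [CompactSpace G] :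
    ∃ (D : ℕ) (X : Fin D → Matrix (Fin N) (Fin N) ℂ) (C : ℝ), 0 ≤ C ∧ (∀ i, ‖X i‖ = 1) ∧
      (∀ i, ∃ γ : ℝ → G, ∀ s, mat (γ s) = NormedSpace.exp (s • X i)) ∧
      ∀ {ι : Type} (s : Finset ι) (f : ι → ℝ) (g : ι → G),
        ‖∑ e ∈ s, f e • (mat (g e) - 1)‖ ≤
          Real.sqrt (∑ i, (Matrix.trace (X i * ∑ e ∈ s, f e • (mat (g e) - 1))).re ^ 2) +
            C * ∑ e ∈ s, |f e| * dev (g e) ^ 2 := by
  obtain ⟨𝔤, C, hC, h1, h2⟩ := lie_approx G
  let _ : InnerProductSpace ℝ (Matrix (Fin N) (Fin N) ℂ) := frobInner N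
  let b := stdOrthonormalBasis ℝ 𝔤
  have hb : ∀ i (A : Matrix (Fin N) (Fin N) ℂ),
      inner ℝ (b i : Matrix (Fin N) (Fin N) ℂ) A =
        (Matrix.trace (star (b i : Matrix (Fin N) (Fin N) ℂ) * A)).re := fun i A => rfl
  refine ⟨_, fun i => star (b i : Matrix (Fin N) (Fin N) ℂ), C, hC, fun i => ?_, fun i => ?_, ?_⟩
  · rw [norm_star']
    have := b.orthonormal.1 i
    exact this
  · obtain ⟨γ, hγ⟩ := h1 _ (b i).2
    refine ⟨fun s => (γ s)⁻¹, fun s => ?_⟩
    rw [mat_inv, hγ, Matrix.star_eq_conjTranspose, ← Matrix.exp_conjTranspose,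
      ← Matrix.star_eq_conjTranspose, star_smul, star_trivial]
  · intro ι s f g
    set B := ∑ e ∈ s, f e • (mat (g e) - 1) with hB
    choose Y hY using fun e => h2 (g e)
    have hYm : ∑ e ∈ s, f e • Y e ∈ 𝔤 :=
      Submodule.sum_mem _ fun e _ => Submodule.smul_mem _ _ (hY e).1
    set Z := ∑ e ∈ s, f e • Y e with hZ
    have hBZ : ‖B - Z‖ ≤ C * ∑ e ∈ s, |f e| * dev (g e) ^ 2 := by
      rw [hB, hZ, ← Finset.sum_sub_distrib, Finset.mul_sum]
      refine (norm_sum_le _ _).trans (Finset.sum_le_sum fun e _ => ?_)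
      rw [← smul_sub, norm_smul, Real.norm_eq_abs]
      have := mul_le_mul_of_nonneg_left (hY e).2 (abs_nonneg (f e))
      nlinarith
    have hπ : ‖𝔤.orthogonalProjectionOnto B‖ =
        Real.sqrt (∑ i, (Matrix.trace (star (b i : Matrix (Fin N) (Fin N) ℂ) * B)).re ^ 2) := by
      rw [← Real.sqrt_sq (norm_nonneg (𝔤.orthogonalProjectionOnto B))]
      congr 1
      rw [← b.sum_sq_norm_inner_right]
      refine Finset.sum_congr rfl fun i _ => ?_
      rw [Real.norm_eq_abs, sq_abs, ← hb]
      congr 1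
      rw [Submodule.inner_orthogonalProjectionOnto_eq_of_mem_left]
    have h4 : ‖B - (𝔤.orthogonalProjectionOnto B : Matrix (Fin N) (Fin N) ℂ)‖ ≤ ‖B - Z‖ := by
      have h5 := Submodule.starProjection_minimal (U := 𝔤) B
      rw [Submodule.starProjection_apply] at h5
      rw [h5]
      exact ciInf_le (f := fun x : 𝔤 => ‖B - x‖)
        ⟨0, Set.forall_mem_range.mpr fun _ => norm_nonneg _⟩ ⟨Z, hYm⟩
    calc ‖B‖ = ‖(𝔤.orthogonalProjectionOnto B : Matrix (Fin N) (Fin N) ℂ) +
          (B - (𝔤.orthogonalProjectionOnto B : Matrix (Fin N) (Fin N) ℂ))‖ := by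
          congr 1; abel
      _ ≤ ‖(𝔤.orthogonalProjectionOnto B : Matrix (Fin N) (Fin N) ℂ)‖ +
          ‖B - (𝔤.orthogonalProjectionOnto B : Matrix (Fin N) (Fin N) ℂ)‖ := norm_add_le _ _
      _ ≤ _ := add_le_add hπ.le (h4.trans hBZ)

end Pool.Agent.Helper82.YM
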